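import Pool.Agent.SH33.Rows

/-!
Sparse halves (helper33): pointwise inequalities for triples.
-/

namespace Pool.Agent.SH33

def leafA (a b c ab ac bc : ℕ) : Bool :=
  Nat.ble (An a b c ab ac bc
    + An b a c ab bc ac
    + An c a b ac bc ab)
    (Kn a b c ab ac bc + 2147483648)

def chkA : Bool :=
  all 8 (fun a =>
  all 8 (fun b =>
  all 2 (fun ab =>
  (bad a b ab).or (
  all 8 (fun c =>
  all 2 (fun ac =>
  (bad a c ac).or (
  all 2 (fun bc =>
  (bad b c bc).or (
  (tri ab ac bc).or (
  leafA a b c ab ac bc))))))))))

theorem chkA_sound (h : chkA = true) {a b c ab ac bc : ℕ}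
    (h_a : a < 8)
    (h_b : b < 8)
    (h_ab : ab < 2)
    (g1 : bad a b ab = false)
    (h_c : c < 8)
    (h_ac : ac < 2)
    (g2 : bad a c ac = false)
    (h_bc : bc < 2)
    (g3 : bad b c bc = false)
    (g4 : tri ab ac bc = false) :
    leafA a b c ab ac bc = true := by
  unfold chkA at h
  have h := all_spec h h_a
  have h := all_spec h h_b
  have h := all_spec h h_ab
  have h := or_res h g1
  have h := all_spec h h_c
  have h := all_spec h h_ac
  have h := or_res h g2
  have h := all_spec h h_bc
  have h := or_res h g3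
  have h := or_res h g4
  exact h

theorem chkA_true : chkA = true := by decide +kernel

def leafB (a b c ab ac bc : ℕ) : Bool :=
  Nat.ble (Bn a b c ab ac bc
    + Bn b a c ab bc ac
    + Bn c a b ac bc ab)
    (Kn a b c ab ac bc + 2147483648)

def chkB : Bool :=
  all 8 (fun a =>
  all 8 (fun b =>
  all 2 (fun ab =>
  (bad a b ab).or (
  all 8 (fun c =>
  all 2 (fun ac =>
  (bad a c ac).or (
  all 2 (fun bc =>
  (bad b c bc).or (
  (tri ab ac bc).or (
  leafB a b c ab ac bc))))))))))

theorem chkB_sound (h : chkB = true) {a b c ab ac bc : ℕ}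
    (h_a : a < 8)
    (h_b : b < 8)
    (h_ab : ab < 2)
    (g1 : bad a b ab = false)
    (h_c : c < 8)
    (h_ac : ac < 2)
    (g2 : bad a c ac = false)
    (h_bc : bc < 2)
    (g3 : bad b c bc = false)
    (g4 : tri ab ac bc = false) :
    leafB a b c ab ac bc = true := by
  unfold chkB at h
  have h := all_spec h h_a
  have h := all_spec h h_b
  have h := all_spec h h_ab
  have h := or_res h g1
  have h := all_spec h h_c
  have h := all_spec h h_ac
  have h := or_res h g2
  have h := all_spec h h_bc
  have h := or_res h g3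
  have h := or_res h g4
  exact h

theorem chkB_true : chkB = true := by decide +kernel

end Pool.Agent.SH33
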