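import Pool.Agent.SH33.Rows

/-!
Sparse halves (helper33): pointwise inequality in the first region.
-/

namespace Pool.Agent.SH33

def leafI (a b c d ab ac bc ad bd cd : ℕ) : Bool :=
  Nat.ble (Gn a b c bc d
    + Gn b a c ac d
    + Gn c a b ab d
    + Gn a b d bd c
    + Gn b a d ad c
    + Gn d a b ab c
    + Gn a c d cd b
    + Gn c a d ad b
    + Gn d a c ac b
    + Gn b c d cd a
    + Gn c b d bd a
    + Gn d b c bc a
    + Ln a b c d bc bd cd
    + Ln b a c d ac ad cd
    + Ln c a b d ab ad bd
    + Ln d a b c ab ac bc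
    + P1n a b ab c d cd
    + P1n a c ac b d bd
    + P1n a d ad b c bc
    + Q4n a b ab c ac bc d ad bd
    + Q4n a c ac b ab bc d ad cd
    + Q4n a d ad b ab bd c ac cd
    + Q4n b c bc a ab ac d bd cd
    + Q4n b d bd a ab ad c bc cd
    + Q4n c d cd a ac ad b bc bd)
    (Tn a b c d ab ac bc ad bd cd + 25769803776)

def chkI : Bool :=
  all 4 (fun a =>
  all 4 (fun b =>
  all 2 (fun ab =>
  (bad a b ab).or (
  all 4 (fun c =>
  all 2 (fun ac =>
  (bad a c ac).or (
  all 2 (fun bc =>
  (bad b c bc).or (
  (tri ab ac bc).or (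
  all 4 (fun d =>
  all 2 (fun ad =>
  (bad a d ad).or (
  all 2 (fun bd =>
  (bad b d bd).or (
  (tri ab ad bd).or (
  all 2 (fun cd =>
  (bad c d cd).or (
  (tri ac ad cd).or (
  (tri bc bd cd).or (
  leafI a b c d ab ac bc ad bd cd))))))))))))))))))))

theorem chkI_sound (h : chkI = true) {a b c d ab ac bc ad bd cd : ℕ}
    (h_a : a < 4)
    (h_b : b < 4)
    (h_ab : ab < 2)
    (g1 : bad a b ab = false)
    (h_c : c < 4)
    (h_ac : ac < 2)
    (g2 : bad a c ac = false)
    (h_bc : bc < 2)
    (g3 : bad b c bc = false)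
    (g4 : tri ab ac bc = false)
    (h_d : d < 4)
    (h_ad : ad < 2)
    (g5 : bad a d ad = false)
    (h_bd : bd < 2)
    (g6 : bad b d bd = false)
    (g7 : tri ab ad bd = false)
    (h_cd : cd < 2)
    (g8 : bad c d cd = false)
    (g9 : tri ac ad cd = false)
    (g10 : tri bc bd cd = false) :
    leafI a b c d ab ac bc ad bd cd = true := by
  unfold chkI at h
  have h := all_spec h h_a
  have h := all_spec h h_b
  have h := all_spec h h_ab
  have h := or_res h g1
  have h := all_spec h h_c
  have h := all_spec h h_ac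
  have h := or_res h g2
  have h := all_spec h h_bc
  have h := or_res h g3
  have h := or_res h g4
  have h := all_spec h h_d
  have h := all_spec h h_ad
  have h := or_res h g5
  have h := all_spec h h_bd
  have h := or_res h g6
  have h := or_res h g7
  have h := all_spec h h_cd
  have h := or_res h g8
  have h := or_res h g9
  have h := or_res h g10
  exact h

theorem chkI_true : chkI = true := by decide +kernel

end Pool.Agent.SH33
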