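import Pool.Agent.SH33.Rows

/-!
Sparse halves (helper33): pointwise inequality in the second region.
-/

namespace Pool.Agent.SH33

/-- The lift of the triple functional. -/
def KLn (x y z w yz yw zw : ℕ) : ℕ := bif Nat.beq x 0 then Kn y z w yz yw zw else 1073741824

def leafII (a b c d ab ac bc ad bd cd : ℕ) : Bool :=
  Nat.ble (P2n a b ab c d cd
    + P2n a c ac b d bd
    + P2n a d ad b c bc
    + KLn a (Nat.add b (Nat.mul 4 ab)) (Nat.add c (Nat.mul 4 ac)) (Nat.add d (Nat.mul 4 ad)) bc bd cd
    + KLn b (Nat.add a (Nat.mul 4 ab)) (Nat.add c (Nat.mul 4 bc)) (Nat.add d (Nat.mul 4 bd)) ac ad cd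
    + KLn c (Nat.add a (Nat.mul 4 ac)) (Nat.add b (Nat.mul 4 bc)) (Nat.add d (Nat.mul 4 cd)) ab ad bd
    + KLn d (Nat.add a (Nat.mul 4 ad)) (Nat.add b (Nat.mul 4 bd)) (Nat.add c (Nat.mul 4 cd)) ab ac bc)
    (Tn a b c d ab ac bc ad bd cd + 6442450944)

def chkII : Bool :=
  all 4 (fun a =>
  all 4 (fun b =>
  all 2 (fun ab =>
  (bad a b ab).or (
  all 4 (fun c =>
  all 2 (fun ac =>
  (bad a c ac).or (
  all 2 (fun bc =>
  (bad b c bc).or (
  (tri ab ac bc).or (
  all 4 (fun d =>
  all 2 (fun ad =>
  (bad a d ad).or (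
  all 2 (fun bd =>
  (bad b d bd).or (
  (tri ab ad bd).or (
  all 2 (fun cd =>
  (bad c d cd).or (
  (tri ac ad cd).or (
  (tri bc bd cd).or (
  leafII a b c d ab ac bc ad bd cd))))))))))))))))))))

theorem chkII_sound (h : chkII = true) {a b c d ab ac bc ad bd cd : ℕ}
    (h_a : a < 4)
    (h_b : b < 4)
    (h_ab : ab < 2)
    (g1 : bad a b ab = false)
    (h_c : c < 4)
    (h_ac : ac < 2)
    (g2 : bad a c ac = false)
    (h_bc : bc < 2)
    (g3 : bad b c bc = false)
    (g4 : tri ab ac bc = false)
    (h_d : d < 4)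
    (h_ad : ad < 2)
    (g5 : bad a d ad = false)
    (h_bd : bd < 2)
    (g6 : bad b d bd = false)
    (g7 : tri ab ad bd = false)
    (h_cd : cd < 2)
    (g8 : bad c d cd = false)
    (g9 : tri ac ad cd = false)
    (g10 : tri bc bd cd = false) :
    leafII a b c d ab ac bc ad bd cd = true := by
  unfold chkII at h
  have h := all_spec h h_a
  have h := all_spec h h_b
  have h := all_spec h h_ab
  have h := or_res h g1
  have h := all_spec h h_c
  have h := all_spec h h_ac
  have h := or_res h g2
  have h := all_spec h h_bc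
  have h := or_res h g3
  have h := or_res h g4
  have h := all_spec h h_d
  have h := all_spec h h_ad
  have h := or_res h g5
  have h := all_spec h h_bd
  have h := or_res h g6
  have h := or_res h g7
  have h := all_spec h h_cd
  have h := or_res h g8
  have h := or_res h g9
  have h := or_res h g10
  exact h

theorem chkII_true : chkII = true := by decide +kernel

end Pool.Agent.SH33
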