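import Pool.Agent.SH33.Rows

/-!
Sparse halves (helper33): the pair functional is negative on average.
-/

namespace Pool.Agent.SH33

/-- The pair functional, set to `0` for adjacent pairs. -/
def TTn (uv a b c d ab ac bc ad bd cd : ℕ) : ℕ :=
  bif Nat.beq uv 0 then Tn a b c d ab ac bc ad bd cd else 1073741824

def leafT (ab ac bc ad bd cd ae be ce de af bf cf df ef : ℕ) : Bool :=
  Nat.ble (TTn ab (Nat.add ac (Nat.mul 2 bc)) (Nat.add ad (Nat.mul 2 bd)) (Nat.add ae (Nat.mul 2 be)) (Nat.add af (Nat.mul 2 bf)) cd ce de cf df ef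
    + TTn ac (Nat.add ab (Nat.mul 2 bc)) (Nat.add ad (Nat.mul 2 cd)) (Nat.add ae (Nat.mul 2 ce)) (Nat.add af (Nat.mul 2 cf)) bd be de bf df ef
    + TTn ad (Nat.add ab (Nat.mul 2 bd)) (Nat.add ac (Nat.mul 2 cd)) (Nat.add ae (Nat.mul 2 de)) (Nat.add af (Nat.mul 2 df)) bc be ce bf cf ef
    + TTn ae (Nat.add ab (Nat.mul 2 be)) (Nat.add ac (Nat.mul 2 ce)) (Nat.add ad (Nat.mul 2 de)) (Nat.add af (Nat.mul 2 ef)) bc bd cd bf cf df
    + TTn af (Nat.add ab (Nat.mul 2 bf)) (Nat.add ac (Nat.mul 2 cf)) (Nat.add ad (Nat.mul 2 df)) (Nat.add ae (Nat.mul 2 ef)) bc bd cd be ce de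
    + TTn bc (Nat.add ab (Nat.mul 2 ac)) (Nat.add bd (Nat.mul 2 cd)) (Nat.add be (Nat.mul 2 ce)) (Nat.add bf (Nat.mul 2 cf)) ad ae de af df ef
    + TTn bd (Nat.add ab (Nat.mul 2 ad)) (Nat.add bc (Nat.mul 2 cd)) (Nat.add be (Nat.mul 2 de)) (Nat.add bf (Nat.mul 2 df)) ac ae ce af cf ef
    + TTn be (Nat.add ab (Nat.mul 2 ae)) (Nat.add bc (Nat.mul 2 ce)) (Nat.add bd (Nat.mul 2 de)) (Nat.add bf (Nat.mul 2 ef)) ac ad cd af cf df
    + TTn bf (Nat.add ab (Nat.mul 2 af)) (Nat.add bc (Nat.mul 2 cf)) (Nat.add bd (Nat.mul 2 df)) (Nat.add be (Nat.mul 2 ef)) ac ad cd ae ce de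
    + TTn cd (Nat.add ac (Nat.mul 2 ad)) (Nat.add bc (Nat.mul 2 bd)) (Nat.add ce (Nat.mul 2 de)) (Nat.add cf (Nat.mul 2 df)) ab ae be af bf ef
    + TTn ce (Nat.add ac (Nat.mul 2 ae)) (Nat.add bc (Nat.mul 2 be)) (Nat.add cd (Nat.mul 2 de)) (Nat.add cf (Nat.mul 2 ef)) ab ad bd af bf df
    + TTn cf (Nat.add ac (Nat.mul 2 af)) (Nat.add bc (Nat.mul 2 bf)) (Nat.add cd (Nat.mul 2 df)) (Nat.add ce (Nat.mul 2 ef)) ab ad bd ae be de
    + TTn de (Nat.add ad (Nat.mul 2 ae)) (Nat.add bd (Nat.mul 2 be)) (Nat.add cd (Nat.mul 2 ce)) (Nat.add df (Nat.mul 2 ef)) ab ac bc af bf cf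
    + TTn df (Nat.add ad (Nat.mul 2 af)) (Nat.add bd (Nat.mul 2 bf)) (Nat.add cd (Nat.mul 2 cf)) (Nat.add de (Nat.mul 2 ef)) ab ac bc ae be ce
    + TTn ef (Nat.add ae (Nat.mul 2 af)) (Nat.add be (Nat.mul 2 bf)) (Nat.add ce (Nat.mul 2 cf)) (Nat.add de (Nat.mul 2 df)) ab ac bc ad bd cd + 1)
    16106127360

def chkT : Bool :=
  all 2 (fun ab =>
  all 2 (fun ac =>
  all 2 (fun bc =>
  (tri ab ac bc).or (
  all 2 (fun ad =>
  all 2 (fun bd =>
  (tri ab ad bd).or (
  all 2 (fun cd =>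
  (tri ac ad cd).or (
  (tri bc bd cd).or (
  all 2 (fun ae =>
  all 2 (fun be =>
  (tri ab ae be).or (
  all 2 (fun ce =>
  (tri ac ae ce).or (
  (tri bc be ce).or (
  all 2 (fun de =>
  (tri ad ae de).or (
  (tri bd be de).or (
  (tri cd ce de).or (
  all 2 (fun af =>
  all 2 (fun bf =>
  (tri ab af bf).or (
  all 2 (fun cf =>
  (tri ac af cf).or (
  (tri bc bf cf).or (
  all 2 (fun df =>
  (tri ad af df).or (
  (tri bd bf df).or (
  (tri cd cf df).or (
  all 2 (fun ef =>
  (tri ae af ef).or (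
  (tri be bf ef).or (
  (tri ce cf ef).or (
  (tri de df ef).or (
  leafT ab ac bc ad bd cd ae be ce de af bf cf df ef)))))))))))))))))))))))))))))))))))

theorem chkT_sound (h : chkT = true) {ab ac bc ad bd cd ae be ce de af bf cf df ef : ℕ}
    (h_ab : ab < 2)
    (h_ac : ac < 2)
    (h_bc : bc < 2)
    (g1 : tri ab ac bc = false)
    (h_ad : ad < 2)
    (h_bd : bd < 2)
    (g2 : tri ab ad bd = false)
    (h_cd : cd < 2)
    (g3 : tri ac ad cd = false)
    (g4 : tri bc bd cd = false)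
    (h_ae : ae < 2)
    (h_be : be < 2)
    (g5 : tri ab ae be = false)
    (h_ce : ce < 2)
    (g6 : tri ac ae ce = false)
    (g7 : tri bc be ce = false)
    (h_de : de < 2)
    (g8 : tri ad ae de = false)
    (g9 : tri bd be de = false)
    (g10 : tri cd ce de = false)
    (h_af : af < 2)
    (h_bf : bf < 2)
    (g11 : tri ab af bf = false)
    (h_cf : cf < 2)
    (g12 : tri ac af cf = false)
    (g13 : tri bc bf cf = false)
    (h_df : df < 2)
    (g14 : tri ad af df = false)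
    (g15 : tri bd bf df = false)
    (g16 : tri cd cf df = false)
    (h_ef : ef < 2)
    (g17 : tri ae af ef = false)
    (g18 : tri be bf ef = false)
    (g19 : tri ce cf ef = false)
    (g20 : tri de df ef = false) :
    leafT ab ac bc ad bd cd ae be ce de af bf cf df ef = true := by
  unfold chkT at h
  have h := all_spec h h_ab
  have h := all_spec h h_ac
  have h := all_spec h h_bc
  have h := or_res h g1
  have h := all_spec h h_ad
  have h := all_spec h h_bd
  have h := or_res h g2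
  have h := all_spec h h_cd
  have h := or_res h g3
  have h := or_res h g4
  have h := all_spec h h_ae
  have h := all_spec h h_be
  have h := or_res h g5
  have h := all_spec h h_ce
  have h := or_res h g6
  have h := or_res h g7
  have h := all_spec h h_de
  have h := or_res h g8
  have h := or_res h g9
  have h := or_res h g10
  have h := all_spec h h_af
  have h := all_spec h h_bf
  have h := or_res h g11
  have h := all_spec h h_cf
  have h := or_res h g12
  have h := or_res h g13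
  have h := all_spec h h_df
  have h := or_res h g14
  have h := or_res h g15
  have h := or_res h g16
  have h := all_spec h h_ef
  have h := or_res h g17
  have h := or_res h g18
  have h := or_res h g19
  have h := or_res h g20
  exact h

theorem chkT_true : chkT = true := by decide +kernel

end Pool.Agent.SH33
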