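import Pool.Agent.SH51.Basic

/-!
Sparse halves (helper33): the two inequalities that come from a fractional half built from two
vertex sets `A` (full weight) and `R` (uniform weight).
-/

namespace Pool.Agent.SH33

open Finset Pool.Agent.SH51

section
variable {V : Type*} [Fintype V] [DecidableEq V] (G : SimpleGraph V) [DecidableRel G.Adj]

/-- All fractional halves `x` satisfy `2 P n² < Q B(x, x)`. -/
def Dn (P Q : ℤ) : Prop := ∀ x : V → ℝ, (∀ v, 0 ≤ x v ∧ x v ≤ 1) →
  (Fintype.card V : ℝ) / 2 ≤ ∑ v, x v →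
  2 * (P : ℝ) * (Fintype.card V : ℝ) ^ 2 < (Q : ℝ) * B G x x

/-- The adjacency indicator. -/
def e (x y : V) : ℕ := if G.Adj x y then 1 else 0

theorem dn_of_not (h : ¬ ∃ S : Finset V, S.card = Fintype.card V / 2 ∧
    40 * (G.induce (S : Set V)).edgeSet.ncard ≤ Fintype.card V ^ 2) : Dn G 1 40 := by
  intro x hx hs
  have hm : ((Fintype.card V / 2 : ℕ) : ℝ) ≤ ∑ v, x v := by
    refine le_trans ?_ hs
    exact Nat.cast_div_le
  obtain ⟨S, hS, hB⟩ := rounding G x (Fintype.card V / 2) hx hm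
  rw [B_indicator] at hB
  push Not at h
  have h1 := h S hS
  have h2 : ((Fintype.card V : ℝ)) ^ 2 < 40 * ((G.induce (S : Set V)).edgeSet.ncard : ℝ) := by
    exact_mod_cast h1
  push_cast
  linarith

theorem B_cast (x y : V → ℤ) : B G (fun v => (x v : ℝ)) (fun v => (y v : ℝ))
    = ((∑ u, ∑ v, (e G u v : ℤ) * (x u * y v) : ℤ) : ℝ) := by
  unfold B e
  push_cast
  refine Finset.sum_congr rfl fun u _ => Finset.sum_congr rfl fun v _ => ?_
  by_cases h : G.Adj u v <;> simp [h]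

variable {G}

/-- The set `R` has at least half of the vertices. -/
theorem form2 {P Q : ℤ} (hd : Dn G P Q) (r : V → ℤ) (hr : ∀ x, r x = 0 ∨ r x = 1)
    (hs : (Fintype.card V : ℤ) ≤ 2 * ∑ x, r x) :
    0 ≤ ∑ x, ∑ y, r x * r y * (Q * (e G x y : ℤ) - 8 * P) := by
  rcases Nat.eq_zero_or_pos (Fintype.card V) with h0 | hpos
  · have : IsEmpty V := Fintype.card_eq_zero_iff.1 h0
    simp
  set s : ℤ := ∑ x, r x with hsdef
  have hn : (0 : ℝ) < (Fintype.card V : ℝ) := by exact_mod_cast hpos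
  have hsR : (Fintype.card V : ℝ) ≤ 2 * (s : ℝ) := by exact_mod_cast hs
  have hspos : (0 : ℝ) < (s : ℝ) := by linarith
  set t : ℝ := (Fintype.card V : ℝ) / (2 * s) with ht
  have ht0 : 0 ≤ t := by positivity
  have ht1 : t ≤ 1 := by rw [ht, div_le_one (by linarith)]; exact hsR
  have hsum : ((∑ x, (r x : ℝ))) = (s : ℝ) := by rw [hsdef]; push_cast; rfl
  have h := hd (fun v => 0 + t * (r v : ℝ)) (fun v => by
      rcases hr v with h | h <;> simp [h, ht0, ht1]) (by
      simp only [zero_add]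
      rw [← Finset.mul_sum, hsum, ht]
      have : (Fintype.card V : ℝ) / (2 * s) * s = (Fintype.card V : ℝ) / 2 := by field_simp
      rw [this])
  rw [B_expand G (fun _ => 0) (fun v => (r v : ℝ)) t] at h
  have hz : ∀ y : V → ℝ, B G (fun _ => 0) y = 0 := by intro y; unfold B; simp
  rw [hz, hz, B_cast] at h
  set b : ℤ := ∑ u, ∑ v, (e G u v : ℤ) * (r u * r v) with hb
  have h2 : 8 * (P : ℝ) * (s : ℝ) ^ 2 ≤ (Q : ℝ) * (b : ℝ) := by
    have ht2 : t * (2 * s) = (Fintype.card V : ℝ) := by rw [ht]; field_simp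
    have h3 : 2 * (P : ℝ) * (t * (2 * s)) ^ 2 < Q * (t ^ 2 * b) := by
      rw [ht2]; simpa using h
    have ht3 : 0 < t := by rw [ht]; positivity
    by_contra hcon
    push Not at hcon
    have : t ^ 2 * ((Q : ℝ) * b) ≤ t ^ 2 * (8 * P * s ^ 2) :=
      mul_le_mul_of_nonneg_left hcon.le (by positivity)
    nlinarith
  have h3 : 8 * P * s ^ 2 ≤ Q * b := by exact_mod_cast h2
  have h4 : ∑ x, ∑ y, r x * r y * (Q * (e G x y : ℤ) - 8 * P) = Q * b - 8 * P * s ^ 2 := by
    rw [hb, pow_two, hsdef, Finset.sum_mul_sum, Finset.mul_sum, Finset.mul_sum,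
      ← Finset.sum_sub_distrib]
    refine Finset.sum_congr rfl fun x _ => ?_
    rw [Finset.mul_sum, Finset.mul_sum, ← Finset.sum_sub_distrib]
    refine Finset.sum_congr rfl fun y _ => ?_
    ring
  rw [h4]; linarith

/-- `A` is full and the rest of the weight is spread evenly over `R`. -/
theorem form3 {P Q : ℤ} (hQ : 0 ≤ Q) (hd : Dn G P Q) (a r : V → ℤ) (ha : ∀ x, a x = 0 ∨ a x = 1)
    (hr : ∀ x, r x = 0 ∨ r x = 1) (har : ∀ x, a x = 0 ∨ r x = 0)
    (hA : 2 * ∑ x, a x ≤ (Fintype.card V : ℤ))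
    (hAR : (Fintype.card V : ℤ) ≤ 2 * (∑ x, a x + ∑ x, r x)) :
    0 ≤ ∑ x, ∑ y, ∑ z, ((e G y z : ℤ) * (2 * Q * r x * a y * a z
      + (Q - 2 * Q * a x) * (a y * r z + r y * a z + r y * r z)) - 4 * P * r x) := by
  have hn0 : (0 : ℝ) ≤ (Fintype.card V : ℝ) := Nat.cast_nonneg _
  set sA : ℤ := ∑ x, a x with hsA
  set s : ℤ := ∑ x, r x with hsR
  set n : ℤ := (Fintype.card V : ℤ) with hn
  have hr0 : ∀ x, 0 ≤ r x := fun x => by rcases hr x with h | h <;> simp [h]
  have hs0 : 0 ≤ s := Finset.sum_nonneg fun x _ => hr0 x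
  set bAA : ℤ := ∑ u, ∑ v, (e G u v : ℤ) * (a u * a v) with hbAA
  set bAR : ℤ := ∑ u, ∑ v, (e G u v : ℤ) * (a u * r v) with hbAR
  set bRA : ℤ := ∑ u, ∑ v, (e G u v : ℤ) * (r u * a v) with hbRA
  set bRR : ℤ := ∑ u, ∑ v, (e G u v : ℤ) * (r u * r v) with hbRR
  have hRA : (bRA : ℝ) = bAR := by
    rw [hbRA, hbAR, ← B_cast, ← B_cast, B_comm]
  have hRA' : bRA = bAR := by exact_mod_cast hRA
  have hexp : ∑ x, ∑ y, ∑ z, ((e G y z : ℤ) * (2 * Q * r x * a y * a z
      + (Q - 2 * Q * a x) * (a y * r z + r y * a z + r y * r z)) - 4 * P * r x)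
      = 2 * Q * s * bAA + Q * (n - 2 * sA) * (bAR + bRA + bRR) - 4 * P * n ^ 2 * s := by
    have e1 : ∀ x, ∑ y, ∑ z, ((e G y z : ℤ) * (2 * Q * r x * a y * a z
      + (Q - 2 * Q * a x) * (a y * r z + r y * a z + r y * r z)) - 4 * P * r x)
      = r x * (2 * Q * bAA) + (Q - 2 * Q * a x) * (bAR + bRA + bRR) - 4 * P * n ^ 2 * r x := by
      intro x
      have e2 : ∀ y, ∑ z, ((e G y z : ℤ) * (2 * Q * r x * a y * a z
        + (Q - 2 * Q * a x) * (a y * r z + r y * a z + r y * r z)) - 4 * P * r x)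
        = r x * (2 * Q) * (∑ z, (e G y z : ℤ) * (a y * a z))
          + (Q - 2 * Q * a x) * ((∑ z, (e G y z : ℤ) * (a y * r z))
            + (∑ z, (e G y z : ℤ) * (r y * a z)) + ∑ z, (e G y z : ℤ) * (r y * r z))
          - n * (4 * P * r x) := by
        intro y
        rw [Finset.sum_sub_distrib, Finset.sum_const, Finset.card_univ, nsmul_eq_mul, ← hn,
          ← Finset.sum_add_distrib, ← Finset.sum_add_distrib, Finset.mul_sum, Finset.mul_sum,
          ← Finset.sum_add_distrib]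
        congr 1
        refine Finset.sum_congr rfl fun z _ => ?_
        ring
      simp only [e2]
      rw [Finset.sum_sub_distrib, Finset.sum_const, Finset.card_univ, nsmul_eq_mul, ← hn,
        Finset.sum_add_distrib, ← Finset.mul_sum, ← Finset.mul_sum, Finset.sum_add_distrib,
        Finset.sum_add_distrib, ← hbAA, ← hbAR, ← hbRA, ← hbRR]
      ring
    simp only [e1]
    rw [Finset.sum_sub_distrib, Finset.sum_add_distrib, ← Finset.sum_mul, ← Finset.sum_mul,
      ← Finset.mul_sum, ← hsR, Finset.sum_sub_distrib, Finset.sum_const, Finset.card_univ,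
      nsmul_eq_mul, ← hn, ← Finset.mul_sum, ← hsA]
    ring
  rw [hexp, hRA']
  rcases hs0.eq_or_lt with h0 | hpos
  · have hall : ∀ x, r x = 0 := by
      intro x
      have := (Finset.sum_eq_zero_iff_of_nonneg (fun x _ => hr0 x)).1 (h0.symm : ∑ x, r x = 0) x
        (Finset.mem_univ x)
      exact this
    have h1 : bAR = 0 := by rw [hbAR]; simp [hall]
    have h2 : bRR = 0 := by rw [hbRR]; simp [hall]
    rw [← h0, h1, h2]; simp
  · have hsR' : (0 : ℝ) < (s : ℝ) := by exact_mod_cast hpos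
    set t : ℝ := ((n : ℝ) / 2 - sA) / s with ht
    have hA' : 2 * (sA : ℝ) ≤ (n : ℝ) := by exact_mod_cast hA
    have hAR' : (n : ℝ) ≤ 2 * ((sA : ℝ) + s) := by exact_mod_cast hAR
    have ht0 : 0 ≤ t := div_nonneg (by linarith) hsR'.le
    have ht1 : t ≤ 1 := by rw [ht, div_le_one hsR']; linarith
    have hts : t * s = (n : ℝ) / 2 - sA := by rw [ht]; field_simp
    have hnR : ((n : ℤ) : ℝ) = (Fintype.card V : ℝ) := by rw [hn]; push_cast; rfl
    have h := hd (fun v => (a v : ℝ) + t * (r v : ℝ)) (fun v => by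
        rcases har v with h | h
        · rcases hr v with h' | h' <;> simp [h, h', ht0, ht1]
        · rcases ha v with h' | h' <;> simp [h, h']) (by
        rw [Finset.sum_add_distrib, ← Finset.mul_sum]
        have e1 : ∑ v, (a v : ℝ) = sA := by rw [hsA]; push_cast; rfl
        have e2 : ∑ v, (r v : ℝ) = s := by rw [hsR]; push_cast; rfl
        rw [e1, e2, hts, ← hnR]; linarith)
    rw [B_expand, B_cast, B_cast, B_cast, ← hbAA, ← hbAR, ← hbRR, ← hnR] at h
    have hRR0 : (0 : ℝ) ≤ (bRR : ℝ) := by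
      have : 0 ≤ bRR := by
        rw [hbRR]
        refine Finset.sum_nonneg fun u _ => Finset.sum_nonneg fun v _ => ?_
        have := hr0 u
        have := hr0 v
        positivity
      exact_mod_cast this
    have hQ' : (0 : ℝ) ≤ (Q : ℝ) := by exact_mod_cast hQ
    have htt : t ^ 2 ≤ t := by nlinarith
    have h1 : 2 * (P : ℝ) * n ^ 2 < Q * (bAA + t * (2 * bAR) + t * bRR) := by
      refine lt_of_lt_of_le h (mul_le_mul_of_nonneg_left ?_ hQ')
      have := mul_le_mul_of_nonneg_right htt hRR0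
      linarith
    have h2 : 2 * (P : ℝ) * n ^ 2 * s ≤ Q * (bAA * s + (t * s) * (2 * bAR + bRR)) := by
      have := mul_le_mul_of_nonneg_right h1.le hsR'.le
      calc 2 * (P : ℝ) * n ^ 2 * s ≤ Q * (bAA + t * (2 * bAR) + t * bRR) * s := this
        _ = _ := by ring
    rw [hts] at h2
    have h3 : (0 : ℝ) ≤ ((2 * Q * s * bAA + Q * (n - 2 * sA) * (bAR + bAR + bRR)
        - 4 * P * n ^ 2 * s : ℤ) : ℝ) := by
      push_cast
      nlinarith [h2]
    exact_mod_cast h3

/-- An independent set has fewer than half of the vertices. -/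
theorem indep_lt {P Q : ℤ} (hP : 0 ≤ P) (hd : Dn G P Q) (r : V → ℤ) (hr : ∀ x, r x = 0 ∨ r x = 1)
    (hI : ∀ x y, G.Adj x y → r x = 0 ∨ r y = 0) : 2 * ∑ x, r x < (Fintype.card V : ℤ) := by
  by_contra hcon
  push Not at hcon
  have hcon' : (Fintype.card V : ℝ) ≤ 2 * ∑ x, (r x : ℝ) := by exact_mod_cast hcon
  have h := hd (fun v => (r v : ℝ)) (fun v => by rcases hr v with h | h <;> simp [h]) (by linarith)
  have h0 : B G (fun v => (r v : ℝ)) (fun v => (r v : ℝ)) = 0 := by
    unfold B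
    refine Finset.sum_eq_zero fun u _ => Finset.sum_eq_zero fun v _ => ?_
    by_cases huv : G.Adj u v
    · rw [if_pos huv]
      rcases hI u v huv with h | h <;> simp [h]
    · rw [if_neg huv]
  rw [h0] at h
  have : (0 : ℝ) ≤ 2 * (P : ℝ) * (Fintype.card V : ℝ) ^ 2 := by
    have : (0 : ℝ) ≤ (P : ℝ) := by exact_mod_cast hP
    positivity
  linarith

end

end Pool.Agent.SH33
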