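import Pool.Agent.SH33.Reg

/-!
Sparse halves (helper33): the pair functional has a nonnegative sum.
-/

namespace Pool.Agent.SH33

open Finset

section
variable {V : Type*} [Fintype V] [DecidableEq V] {G : SimpleGraph V} [DecidableRel G.Adj]

theorem FG_eq (u v x y z w : V) : FG G u v x y z w
    = m02 (c2 G u v w) * J3 (ind 0 (c2 G u v x)) (ind 2 (c2 G u v x)) (ind 0 (c2 G u v y))
        (ind 2 (c2 G u v y)) (ind 0 (c2 G u v z)) (ind 2 (c2 G u v z)) (e G y z)
    + m01 (c2 G u v w) * J3 (ind 0 (c2 G u v x)) (ind 1 (c2 G u v x)) (ind 0 (c2 G u v y))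
        (ind 1 (c2 G u v y)) (ind 0 (c2 G u v z)) (ind 1 (c2 G u v z)) (e G y z)
    + m023 (c2 G u v w) * J3 (ind 0 (c2 G u v x)) (r23 (c2 G u v x)) (ind 0 (c2 G u v y))
        (r23 (c2 G u v y)) (ind 0 (c2 G u v z)) (r23 (c2 G u v z)) (e G y z)
    + m013 (c2 G u v w) * J3 (ind 0 (c2 G u v x)) (r13 (c2 G u v x)) (ind 0 (c2 G u v y))
        (r13 (c2 G u v y)) (ind 0 (c2 G u v z)) (r13 (c2 G u v z)) (e G y z) :=
  chkG_eq (c2_lt G _ _ _) (c2_lt G _ _ _) (c2_lt G _ _ _) (e_lt G _ _) (c2_lt G _ _ _)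

theorem FP1_eq (u v x y z w : V) : FP1 G u v x y z w
    = s1 (k2 (c2 G u v x) (c2 G u v y) (e G x y)) (k2 (c2 G u v z) (c2 G u v w) (e G z w)) :=
  chkP1_eq (c2_lt G _ _ _) (c2_lt G _ _ _) (e_lt G _ _) (c2_lt G _ _ _) (c2_lt G _ _ _)
    (e_lt G _ _)

theorem FP2_eq (u v x y z w : V) : FP2 G u v x y z w
    = J2 (ind 0 (c2 G u v x)) (ind 0 (c2 G u v y)) (e G x y)
        * (F2n (c2 G u v z) (c2 G u v w) (e G z w) : ℤ)
      + J2 (ind 0 (c2 G u v z)) (ind 0 (c2 G u v w)) (e G z w)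
        * (F2n (c2 G u v x) (c2 G u v y) (e G x y) : ℤ)
      + s2 (k2 (c2 G u v x) (c2 G u v y) (e G x y)) (k2 (c2 G u v z) (c2 G u v w) (e G z w)) :=
  chkP2_eq (c2_lt G _ _ _) (c2_lt G _ _ _) (e_lt G _ _) (c2_lt G _ _ _) (c2_lt G _ _ _)
    (e_lt G _ _)

theorem FQ_eq (u v x y z w : V) : FQ G u v x y z w
    = s4 (k2 (c2 G u v x) (c2 G u v y) (e G x y)) (f4 (c2 G u v z) (e G x z) (e G y z))
        (f4 (c2 G u v w) (e G x w) (e G y w)) :=
  chkQ4_eq (c2_lt G _ _ _) (c2_lt G _ _ _) (e_lt G _ _) (c2_lt G _ _ _) (e_lt G _ _)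
    (e_lt G _ _) (c2_lt G _ _ _) (e_lt G _ _) (e_lt G _ _)

theorem FL_eq (u v w x y z : V) : FL G u v w x y z
    = (1 - 2 * ind 0 (c2 G u v w)) * (Psn (c2 G u v x) (c2 G u v y) (c2 G u v z)
        (e G x y) (e G x z) (e G y z) : ℤ) := by
  have h := chkPs_eq (c2_lt G u v x) (c2_lt G u v y) (c2_lt G u v z) (e_lt G x y) (e_lt G x z)
    (e_lt G y z)
  unfold FL Ln
  generalize Psn (c2 G u v x) (c2 G u v y) (c2 G u v z) (e G x y) (e G x z) (e G y z) = p at h ⊢
  rcases eq_or_ne (c2 G u v w) 0 with h0 | h0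
  · rw [h0, ind_same]
    have e1 : (bif Nat.beq 0 0 then Nat.sub 1073741824 p else Nat.add 1073741824 p)
        = 1073741824 - p := rfl
    rw [e1, Nat.cast_sub h]; push_cast; ring
  · rw [ind_ne h0]
    have e0 : Nat.beq (c2 G u v w) 0 = false := by
      rw [Bool.eq_false_iff]; intro h'; exact h0 (Nat.eq_of_beq_eq_true h')
    rw [e0]
    have e1 : (bif false then Nat.sub 1073741824 p else Nat.add 1073741824 p)
        = 1073741824 + p := rfl
    rw [e1]; push_cast; ring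

theorem FK_zero {u v x : V} (h : c2 G u v x = 0) (y z w : V) :
    FK G u v x y z w = GK G u v x y z w := by
  unfold FK GK KLn
  rw [h]; rfl

theorem FK_pos {u v x : V} (h : c2 G u v x ≠ 0) (y z w : V) : FK G u v x y z w = 0 := by
  unfold FK KLn
  have e0 : Nat.beq (c2 G u v x) 0 = false := by
    rw [Bool.eq_false_iff]; intro h'; exact h (Nat.eq_of_beq_eq_true h')
  rw [e0, cond_false]
  norm_num

theorem TT_adj {u v : V} (h : G.Adj u v) (x y z w : V) : TT G u v x y z w = 0 := by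
  have h1 : e G u v = 1 := by unfold e; rw [if_pos h]
  have h2 : Nat.beq 1 0 = false := rfl
  unfold TT TTn
  rw [h1, h2, cond_false]
  norm_num

theorem TT_nonadj {u v : V} (h : ¬ G.Adj u v) (x y z w : V) :
    TT G u v x y z w = FT G u v x y z w := by
  have h2 : Nat.beq 0 0 = true := rfl
  unfold TT TTn FT
  rw [e_zero G h, h2, cond_true]

theorem m_nonneg (w : ℕ) : 0 ≤ m02 w ∧ 0 ≤ m01 w ∧ 0 ≤ m023 w ∧ 0 ≤ m013 w := by
  have h0 := ind_nonneg 0 w
  have h1 := ind_nonneg 1 w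
  have h2 := ind_nonneg 2 w
  have h3 := ind_nonneg 3 w
  unfold m02 m01 m023 m013
  refine ⟨by positivity, by positivity, by positivity, by positivity⟩

theorem r_aux (a b : ℕ) (ha : a < 2) (hb : b < 2) :
    1 - (a : ℤ) ≤ ind 0 (Nat.add a (Nat.mul 2 b)) + ind 2 (Nat.add a (Nat.mul 2 b)) ∧
    1 - (b : ℤ) ≤ ind 0 (Nat.add a (Nat.mul 2 b)) + ind 1 (Nat.add a (Nat.mul 2 b)) ∧
    1 - (a : ℤ) ≤ ind 0 (Nat.add a (Nat.mul 2 b)) + r23 (Nat.add a (Nat.mul 2 b)) ∧
    1 - (b : ℤ) ≤ ind 0 (Nat.add a (Nat.mul 2 b)) + r13 (Nat.add a (Nat.mul 2 b)) := by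
  interval_cases a <;> interval_cases b <;> decide

theorem r_cases (c : ℕ) : (r23 c = 0 ∨ r23 c = 1) ∧ (r13 c = 0 ∨ r13 c = 1) ∧
    (ind 0 c = 0 ∨ ind 2 c = 0) ∧ (ind 0 c = 0 ∨ ind 1 c = 0) ∧
    (ind 0 c = 0 ∨ r23 c = 0) ∧ (ind 0 c = 0 ∨ r13 c = 0) := by
  unfold r23 r13
  rcases eq_or_ne c 0 with h | h
  · subst h; decide
  rcases eq_or_ne c 1 with h1 | h1
  · subst h1; decide
  rcases eq_or_ne c 2 with h2 | h2
  · subst h2; decide
  rcases eq_or_ne c 3 with h3 | h3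
  · subst h3; decide
  · simp [ind_ne h, ind_ne h1, ind_ne h2, ind_ne h3]

attribute [local irreducible] Tn Kn Gn Ln P1n P2n Q4n KLn An Bn TTn c2 c3 e h1 h2 h4 ha hb k2 f4 f3
  F2n Psn

theorem s1_nonneg (u v : V) : 0 ≤ S4 (fun x y z w => s1
    (k2 (c2 G u v x) (c2 G u v y) (e G x y)) (k2 (c2 G u v z) (c2 G u v w) (e G z w))) := by
  simp only [s1, S4_add]
  repeat' apply add_nonneg
  all_goals exact S4_sq _

theorem s2_nonneg (u v : V) : 0 ≤ S4 (fun x y z w => s2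
    (k2 (c2 G u v x) (c2 G u v y) (e G x y)) (k2 (c2 G u v z) (c2 G u v w) (e G z w))) := by
  simp only [s2, S4_add]
  repeat' apply add_nonneg
  all_goals exact S4_sq _

theorem s4_nonneg (u v : V) : 0 ≤ S4 (fun x y z w => s4
    (k2 (c2 G u v x) (c2 G u v y) (e G x y)) (f4 (c2 G u v z) (e G x z) (e G y z))
        (f4 (c2 G u v w) (e G x w) (e G y w))) := by
  simp only [s4, S4_add]
  repeat' apply add_nonneg
  all_goals exact S4_sq2 _

/-- A fractional half in the first region. -/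
theorem half_first (hd : Dn G 1 40) {u v : V}
    (hA : 2 * ∑ x, ind 0 (c2 G u v x) ≤ (Fintype.card V : ℤ)) (r : ℕ → ℤ)
    (hr : ∀ c, r c = 0 ∨ r c = 1) (har : ∀ c, ind 0 c = 0 ∨ r c = 0) (w : V)
    (hw : 2 * ∑ x, (e G w x : ℤ) < (Fintype.card V : ℤ))
    (hle : ∀ x, 1 - (e G w x : ℤ) ≤ ind 0 (c2 G u v x) + r (c2 G u v x)) :
    0 ≤ S3 (fun x y z => J3 (ind 0 (c2 G u v x)) (r (c2 G u v x)) (ind 0 (c2 G u v y))
        (r (c2 G u v y)) (ind 0 (c2 G u v z)) (r (c2 G u v z)) (e G y z)) := by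
  refine J3sum hd (fun x => ind 0 (c2 G u v x)) (fun x => r (c2 G u v x)) (fun x => ind_cases _ _)
    (fun x => hr _) (fun x => har _) hA ?_
  rw [← Finset.sum_add_distrib]
  have h1 : ∑ x, (1 - (e G w x : ℤ)) ≤ ∑ x, (ind 0 (c2 G u v x) + r (c2 G u v x)) :=
    Finset.sum_le_sum fun x _ => hle x
  rw [Finset.sum_sub_distrib, Finset.sum_const, Finset.card_univ, nsmul_eq_mul, mul_one] at h1
  linarith

theorem first (hG : G.CliqueFree 3) (hd : Dn G 1 40) (u v : V)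
    (hA : 2 * ∑ x, ind 0 (c2 G u v x) ≤ (Fintype.card V : ℤ))
    (hr : ∀ x, 1 - (e G u x : ℤ) ≤ ind 0 (c2 G u v x) + ind 2 (c2 G u v x) ∧
      1 - (e G v x : ℤ) ≤ ind 0 (c2 G u v x) + ind 1 (c2 G u v x) ∧
      1 - (e G u x : ℤ) ≤ ind 0 (c2 G u v x) + r23 (c2 G u v x) ∧
      1 - (e G v x : ℤ) ≤ ind 0 (c2 G u v x) + r13 (c2 G u v x)) :
    0 ≤ S4 (FT G u v) := by
  have h1 := sumI hG u v
  have g1 : 0 ≤ S4 (FG G u v) := by
    have e1 : FG G u v = fun x y z w => (m02 (c2 G u v w) * J3 (ind 0 (c2 G u v x))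
        (ind 2 (c2 G u v x)) (ind 0 (c2 G u v y))
        (ind 2 (c2 G u v y)) (ind 0 (c2 G u v z)) (ind 2 (c2 G u v z)) (e G y z)
    + m01 (c2 G u v w) * J3 (ind 0 (c2 G u v x)) (ind 1 (c2 G u v x)) (ind 0 (c2 G u v y))
        (ind 1 (c2 G u v y)) (ind 0 (c2 G u v z)) (ind 1 (c2 G u v z)) (e G y z)
    + m023 (c2 G u v w) * J3 (ind 0 (c2 G u v x)) (r23 (c2 G u v x)) (ind 0 (c2 G u v y))
        (r23 (c2 G u v y)) (ind 0 (c2 G u v z)) (r23 (c2 G u v z)) (e G y z)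
    + m013 (c2 G u v w) * J3 (ind 0 (c2 G u v x)) (r13 (c2 G u v x)) (ind 0 (c2 G u v y))
        (r13 (c2 G u v y)) (ind 0 (c2 G u v z)) (r13 (c2 G u v z)) (e G y z)) := by
      funext x y z w; exact FG_eq u v x y z w
    rw [e1]
    simp only [S4_add]
    rw [S4_prod31 (fun x y z => J3 (ind 0 (c2 G u v x)) (ind 2 (c2 G u v x)) (ind 0 (c2 G u v y))
        (ind 2 (c2 G u v y)) (ind 0 (c2 G u v z)) (ind 2 (c2 G u v z)) (e G y z))
        (fun w => m02 (c2 G u v w)),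
      S4_prod31 (fun x y z => J3 (ind 0 (c2 G u v x)) (ind 1 (c2 G u v x)) (ind 0 (c2 G u v y))
        (ind 1 (c2 G u v y)) (ind 0 (c2 G u v z)) (ind 1 (c2 G u v z)) (e G y z))
        (fun w => m01 (c2 G u v w)),
      S4_prod31 (fun x y z => J3 (ind 0 (c2 G u v x)) (r23 (c2 G u v x)) (ind 0 (c2 G u v y))
        (r23 (c2 G u v y)) (ind 0 (c2 G u v z)) (r23 (c2 G u v z)) (e G y z))
        (fun w => m023 (c2 G u v w)),
      S4_prod31 (fun x y z => J3 (ind 0 (c2 G u v x)) (r13 (c2 G u v x)) (ind 0 (c2 G u v y))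
        (r13 (c2 G u v y)) (ind 0 (c2 G u v z)) (r13 (c2 G u v z)) (e G y z))
        (fun w => m013 (c2 G u v w))]
    have p : ∀ m : ℕ → ℤ, (∀ c, 0 ≤ m c) → 0 ≤ ∑ w, m (c2 G u v w) := fun m hm =>
      Finset.sum_nonneg fun w _ => hm _
    have du := deg_lt hG hd u
    have dv := deg_lt hG hd v
    refine add_nonneg (add_nonneg (add_nonneg ?_ ?_) ?_) ?_
    · exact mul_nonneg (p m02 fun c => (m_nonneg c).1)
        (half_first hd hA (ind 2) (fun c => ind_cases _ _) (fun c => (r_cases c).2.2.1) u du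
          (fun x => (hr x).1))
    · exact mul_nonneg (p m01 fun c => (m_nonneg c).2.1)
        (half_first hd hA (ind 1) (fun c => ind_cases _ _) (fun c => (r_cases c).2.2.2.1) v dv
          (fun x => (hr x).2.1))
    · exact mul_nonneg (p m023 fun c => (m_nonneg c).2.2.1)
        (half_first hd hA r23 (fun c => (r_cases c).1) (fun c => (r_cases c).2.2.2.2.1) u du
          (fun x => (hr x).2.2.1))
    · exact mul_nonneg (p m013 fun c => (m_nonneg c).2.2.2)
        (half_first hd hA r13 (fun c => (r_cases c).2.1) (fun c => (r_cases c).2.2.2.2.2) v dv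
          (fun x => (hr x).2.2.2))
  have g2 : 0 ≤ S4 (FL G u v) := by
    have e1 : FL G u v = fun w x y z => (1 - 2 * ind 0 (c2 G u v w)) * (Psn (c2 G u v x)
        (c2 G u v y) (c2 G u v z) (e G x y) (e G x z) (e G y z) : ℤ) := by
      funext w x y z; exact FL_eq u v w x y z
    rw [e1, S4_prod13 (fun x y z => (Psn (c2 G u v x)
        (c2 G u v y) (c2 G u v z) (e G x y) (e G x z) (e G y z) : ℤ))
        (fun w => 1 - 2 * ind 0 (c2 G u v w))]
    refine mul_nonneg ?_ ?_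
    · rw [Finset.sum_sub_distrib, ← Finset.mul_sum, Finset.sum_const, Finset.card_univ,
        nsmul_eq_mul, mul_one]
      linarith
    · rw [S3_eq]
      exact Finset.sum_nonneg fun x _ => Finset.sum_nonneg fun y _ => Finset.sum_nonneg fun z _ =>
        Int.natCast_nonneg _
  have g3 : 0 ≤ S4 (FP1 G u v) := by
    have e1 : FP1 G u v = fun x y z w => s1
        (k2 (c2 G u v x) (c2 G u v y) (e G x y)) (k2 (c2 G u v z) (c2 G u v w) (e G z w)) := by
      funext x y z w; exact FP1_eq u v x y z w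
    rw [e1]; exact s1_nonneg u v
  have g4 : 0 ≤ S4 (FQ G u v) := by
    have e1 : FQ G u v = fun x y z w => s4
        (k2 (c2 G u v x) (c2 G u v y) (e G x y)) (f4 (c2 G u v z) (e G x z) (e G y z))
        (f4 (c2 G u v w) (e G x w) (e G y w)) := by
      funext x y z w; exact FQ_eq u v x y z w
    rw [e1]; exact s4_nonneg u v
  linarith

theorem second (hG : G.CliqueFree 3) (hd : Dn G 1 40) (u v : V)
    (hZ : (Fintype.card V : ℤ) ≤ 2 * ∑ x, ind 0 (c2 G u v x)) : 0 ≤ S4 (FT G u v) := by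
  have h1 := sumII hG u v
  have g1 : 0 ≤ S4 (FP2 G u v) := by
    have e1 : FP2 G u v = fun x y z w => (J2 (ind 0 (c2 G u v x)) (ind 0 (c2 G u v y)) (e G x y)
        * (F2n (c2 G u v z) (c2 G u v w) (e G z w) : ℤ)
      + J2 (ind 0 (c2 G u v z)) (ind 0 (c2 G u v w)) (e G z w)
        * (F2n (c2 G u v x) (c2 G u v y) (e G x y) : ℤ)
      + s2 (k2 (c2 G u v x) (c2 G u v y) (e G x y)) (k2 (c2 G u v z) (c2 G u v w) (e G z w))) := by
      funext x y z w; exact FP2_eq u v x y z w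
    rw [e1]
    simp only [S4_add]
    have hJ := J2sum hd (fun x => ind 0 (c2 G u v x)) (fun x => ind_cases _ _) hZ
    have hF : 0 ≤ ∑ x, ∑ y, (F2n (c2 G u v x) (c2 G u v y) (e G x y) : ℤ) :=
      Finset.sum_nonneg fun x _ => Finset.sum_nonneg fun y _ => Int.natCast_nonneg _
    rw [S4_prod22 (fun x y => J2 (ind 0 (c2 G u v x)) (ind 0 (c2 G u v y)) (e G x y))
        (fun z w => (F2n (c2 G u v z) (c2 G u v w) (e G z w) : ℤ))]
    have e2 : S4 (fun x y z w => J2 (ind 0 (c2 G u v z)) (ind 0 (c2 G u v w)) (e G z w)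
        * (F2n (c2 G u v x) (c2 G u v y) (e G x y) : ℤ))
        = (∑ x, ∑ y, (F2n (c2 G u v x) (c2 G u v y) (e G x y) : ℤ))
          * ∑ z, ∑ w, J2 (ind 0 (c2 G u v z)) (ind 0 (c2 G u v w)) (e G z w) := by
      rw [← S4_prod22]
      congr 1
      funext x y z w
      ring
    rw [e2]
    have h3 := s2_nonneg (G := G) u v
    have h4 := mul_nonneg hJ hF
    have h5 := mul_nonneg hF hJ
    linarith
  have g2 : 0 ≤ S4 (FK G u v) := by
    rw [S4_fst]
    refine Finset.sum_nonneg fun x _ => ?_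
    rcases eq_or_ne (c2 G u v x) 0 with h | h
    · have e1 : FK G u v x = GK G u v x := by
        funext y z w; exact FK_zero h y z w
      rw [e1]; exact triple hG hd u v x hZ
    · have e1 : FK G u v x = fun _ _ _ => 0 := by
        funext y z w; exact FK_pos h y z w
      rw [e1]; unfold S3; simp
  linarith

end

section
variable {V : Type*} [Fintype V] [DecidableEq V] {G : SimpleGraph V} [DecidableRel G.Adj]

theorem pair (hG : G.CliqueFree 3) (hd : Dn G 1 40) (u v : V) : 0 ≤ S4 (FT G u v) := by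
  rcases le_or_gt (2 * ∑ x, ind 0 (c2 G u v x)) (Fintype.card V : ℤ) with h | h
  · exact first hG hd u v h fun x => r_aux _ _ (e_lt G u x) (e_lt G v x)
  · exact second hG hd u v h.le

theorem no_dense (hG : G.CliqueFree 3) (hd : Dn G 1 40) : Fintype.card V = 0 := by
  have h1 := sumT hG
  have h2 : 0 ≤ S6 (TT G) := by
    rw [S6_fst]
    refine Finset.sum_nonneg fun u _ => Finset.sum_nonneg fun v _ => ?_
    by_cases h : G.Adj u v
    · have e1 : TT G u v = fun _ _ _ _ => 0 := by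
        funext x y z w; exact TT_adj h x y z w
      rw [e1]; unfold S4; simp
    · have e1 : TT G u v = FT G u v := by
        funext x y z w; exact TT_nonadj h x y z w
      rw [e1]; exact pair hG hd u v
  by_contra hn
  have h3 : (0 : ℤ) < (Fintype.card V : ℤ) ^ 6 := by
    have : 0 < Fintype.card V := Nat.pos_of_ne_zero hn
    positivity
  linarith

end

end Pool.Agent.SH33
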