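import Pool.Agent.SH33.Vert

/-!
Sparse halves (helper33): the sums of the functionals are nonnegative.
-/

namespace Pool.Agent.SH33

open Finset

section sums
variable {V : Type*} [Fintype V]

theorem S4_prod31 (f : V → V → V → ℤ) (g : V → ℤ) :
    S4 (fun x y z w => g w * f x y z) = (∑ w, g w) * S3 f := by
  rw [S4_eq, S3_eq, Finset.mul_sum]
  refine Finset.sum_congr rfl fun x _ => ?_
  rw [Finset.mul_sum]
  refine Finset.sum_congr rfl fun y _ => ?_
  rw [Finset.mul_sum]
  refine Finset.sum_congr rfl fun z _ => ?_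
  rw [← Finset.sum_mul]

theorem S4_prod13 (f : V → V → V → ℤ) (g : V → ℤ) :
    S4 (fun w x y z => g w * f x y z) = (∑ w, g w) * S3 f := by
  rw [S4_eq, S3_eq, Finset.sum_mul]
  refine Finset.sum_congr rfl fun w _ => ?_
  simp only [← Finset.mul_sum]

theorem S4_prod22 (f g : V → V → ℤ) :
    S4 (fun x y z w => f x y * g z w) = (∑ x, ∑ y, f x y) * ∑ z, ∑ w, g z w := by
  rw [S4_eq, Finset.sum_mul]
  refine Finset.sum_congr rfl fun x _ => ?_
  rw [Finset.sum_mul]
  refine Finset.sum_congr rfl fun y _ => ?_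
  simp only [← Finset.mul_sum]

theorem S4_fst (f : V → V → V → V → ℤ) : S4 f = ∑ x, S3 (f x) := by
  rw [S4_eq]
  refine Finset.sum_congr rfl fun x _ => ?_
  rw [S3_eq]

theorem S6_fst (f : V → V → V → V → V → V → ℤ) : S6 f = ∑ u, ∑ v, S4 (f u v) := by
  rw [S6_eq]
  refine Finset.sum_congr rfl fun u _ => Finset.sum_congr rfl fun v _ => ?_
  rw [S4_eq]

theorem S4_sq (t : V → V → ℤ) : 0 ≤ S4 (fun x y z w => t x y * t z w) := by
  rw [S4_prod22]; exact mul_self_nonneg _

theorem S4_sq2 (t : V → V → V → ℤ) : 0 ≤ S4 (fun x y z w => t x y z * t x y w) := by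
  rw [S4_eq]
  refine Finset.sum_nonneg fun x _ => Finset.sum_nonneg fun y _ => ?_
  rw [← Finset.sum_mul_sum]; exact mul_self_nonneg _

theorem S3_sq2 (t : V → V → ℤ) : 0 ≤ S3 (fun x y z => t x y * t x z) := by
  rw [S3_eq]
  refine Finset.sum_nonneg fun x _ => ?_
  rw [← Finset.sum_mul_sum]; exact mul_self_nonneg _

theorem S3_prod12 (f : V → V → ℤ) (g : V → ℤ) :
    S3 (fun x y z => g x * f y z) = (∑ x, g x) * ∑ y, ∑ z, f y z := by
  rw [S3_eq, Finset.sum_mul]
  refine Finset.sum_congr rfl fun x _ => ?_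
  simp only [← Finset.mul_sum]

theorem S3_smul (c : ℤ) (f : V → V → V → ℤ) :
    S3 (fun x y z => c * f x y z) = c * S3 f := by
  unfold S3; rw [Finset.mul_sum]

end sums

theorem ind_cases (k c : ℕ) : ind k c = 0 ∨ ind k c = 1 := by
  unfold ind; cases Nat.beq c k <;> simp

theorem ind_nonneg (k c : ℕ) : 0 ≤ ind k c := by
  rcases ind_cases k c with h | h <;> simp [h]

theorem ind_same (k : ℕ) : ind k k = 1 := by
  unfold ind; rw [Nat.beq_refl]; rfl

theorem ind_ne {k c : ℕ} (h : c ≠ k) : ind k c = 0 := by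
  unfold ind
  have : Nat.beq c k = false := by
    rw [Bool.eq_false_iff]; intro h'; exact h (Nat.eq_of_beq_eq_true h')
  rw [this]; rfl

section
variable {V : Type*} [Fintype V] [DecidableEq V] {G : SimpleGraph V} [DecidableRel G.Adj]

theorem J2sum (hd : Dn G 1 40) (r : V → ℤ) (hr : ∀ x, r x = 0 ∨ r x = 1)
    (hs : (Fintype.card V : ℤ) ≤ 2 * ∑ x, r x) :
    0 ≤ ∑ x, ∑ y, J2 (r x) (r y) (e G x y) := by
  have h := form2 hd r hr hs
  have h2 : ∑ x, ∑ y, r x * r y * (40 * (e G x y : ℤ) - 8 * 1)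
      = 8 * ∑ x, ∑ y, J2 (r x) (r y) (e G x y) := by
    rw [Finset.mul_sum]
    refine Finset.sum_congr rfl fun x _ => ?_
    rw [Finset.mul_sum]
    refine Finset.sum_congr rfl fun y _ => ?_
    unfold J2; ring
  rw [h2] at h; linarith

theorem J3sum (hd : Dn G 1 40) (a r : V → ℤ) (ha : ∀ x, a x = 0 ∨ a x = 1)
    (hr : ∀ x, r x = 0 ∨ r x = 1) (har : ∀ x, a x = 0 ∨ r x = 0)
    (hA : 2 * ∑ x, a x ≤ (Fintype.card V : ℤ))
    (hAR : (Fintype.card V : ℤ) ≤ 2 * (∑ x, a x + ∑ x, r x)) :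
    0 ≤ S3 (fun x y z => J3 (a x) (r x) (a y) (r y) (a z) (r z) (e G y z)) := by
  have h := form3 (by norm_num) hd a r ha hr har hA hAR
  have h2 : ∑ x, ∑ y, ∑ z, ((e G y z : ℤ) * (2 * 40 * r x * a y * a z
      + (40 - 2 * 40 * a x) * (a y * r z + r y * a z + r y * r z)) - 4 * 1 * r x)
      = 4 * S3 (fun x y z => J3 (a x) (r x) (a y) (r y) (a z) (r z) (e G y z)) := by
    rw [S3_eq, Finset.mul_sum]
    refine Finset.sum_congr rfl fun x _ => ?_
    rw [Finset.mul_sum]
    refine Finset.sum_congr rfl fun y _ => ?_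
    rw [Finset.mul_sum]
    refine Finset.sum_congr rfl fun z _ => ?_
    unfold J3; ring
  rw [h2] at h; linarith

/-- Degrees are less than half of the number of vertices. -/
theorem deg_lt (hG : G.CliqueFree 3) (hd : Dn G 1 40) (u : V) :
    2 * ∑ x, (e G u x : ℤ) < (Fintype.card V : ℤ) := by
  refine indep_lt (by norm_num) hd (fun x => (e G u x : ℤ)) (fun x => ?_) (fun x y hxy => ?_)
  · have := e_lt G u x
    omega
  · rcases e_mul hG u x y with h | h | h
    · left; simp [h]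
    · right; simp [h]
    · exfalso; unfold e at h; rw [if_pos hxy] at h; omega

/-! ### Triples -/

theorem ind_c3 (u v w x : V) : ind 0 (c3 G u v w x) + ind 4 (c3 G u v w x) = ind 0 (c2 G u v x) := by
  have h1 := c2_lt G u v x
  have h2 := e_lt G w x
  have h3 : c3 G u v w x = c2 G u v x + 4 * e G w x := rfl
  rcases Nat.eq_zero_or_pos (c2 G u v x) with h | h
  · rw [h] at h3 ⊢
    rcases Nat.eq_zero_or_pos (e G w x) with h' | h'
    · rw [h3, h']; rfl
    · have h'' : e G w x = 1 := by omega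
      rw [h3, h'']; rfl
  · rw [ind_ne (by omega : c3 G u v w x ≠ 0), ind_ne (by omega : c3 G u v w x ≠ 4),
      ind_ne (by omega : c2 G u v x ≠ 0)]; rfl

theorem FA_eq (u v w x y z : V) : FA G u v w x y z
    = 5811885 * J3 (ind 0 (c3 G u v w x)) (ind 4 (c3 G u v w x)) (ind 0 (c3 G u v w y))
      (ind 4 (c3 G u v w y)) (ind 0 (c3 G u v w z)) (ind 4 (c3 G u v w z)) (e G y z)
    + sa (c3 G u v w x) (f3 (c3 G u v w y) (e G x y)) (f3 (c3 G u v w z) (e G x z)) :=
  chkAn_eq (c3_lt G _ _ _ _) (c3_lt G _ _ _ _) (c3_lt G _ _ _ _) (e_lt G _ _) (e_lt G _ _)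
    (e_lt G _ _)

theorem FB_eq (u v w x y z : V) : FB G u v w x y z
    = mb (c3 G u v w x) * J2 (ind 0 (c3 G u v w y)) (ind 0 (c3 G u v w z)) (e G y z)
    + sb (c3 G u v w x) (f3 (c3 G u v w y) (e G x y)) (f3 (c3 G u v w z) (e G x z)) :=
  chkBn_eq (c3_lt G _ _ _ _) (c3_lt G _ _ _ _) (c3_lt G _ _ _ _) (e_lt G _ _) (e_lt G _ _)
    (e_lt G _ _)

theorem mb_nonneg (c : ℕ) : 0 ≤ mb c := by
  unfold mb
  have h0 := ind_nonneg 0 c
  have h1 := ind_nonneg 1 c
  have h2 := ind_nonneg 2 c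
  have h3 := ind_nonneg 3 c
  have h4 := ind_nonneg 4 c
  have h5 := ind_nonneg 5 c
  have h6 := ind_nonneg 6 c
  have h7 := ind_nonneg 7 c
  positivity

attribute [local irreducible] Tn Kn Gn Ln P1n P2n Q4n KLn An Bn TTn c2 c3 e h1 h2 h4 ha hb k2 f4 f3

theorem sa_nonneg (u v w : V) : 0 ≤ S3 (fun x y z => sa (c3 G u v w x)
    (f3 (c3 G u v w y) (e G x y)) (f3 (c3 G u v w z) (e G x z))) := by
  simp only [sa, S3_add]
  repeat' apply add_nonneg
  all_goals exact S3_sq2 _

theorem sb_nonneg (u v w : V) : 0 ≤ S3 (fun x y z => sb (c3 G u v w x)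
    (f3 (c3 G u v w y) (e G x y)) (f3 (c3 G u v w z) (e G x z))) := by
  simp only [sb, S3_add]
  repeat' apply add_nonneg
  all_goals exact S3_sq2 _

/-- The triple functional is nonnegative when the pair has many common non-neighbours. -/
theorem triple (hG : G.CliqueFree 3) (hd : Dn G 1 40) (u v w : V)
    (hZ : (Fintype.card V : ℤ) ≤ 2 * ∑ x, ind 0 (c2 G u v x)) : 0 ≤ S3 (GK G u v w) := by
  rcases le_or_gt (2 * ∑ x, ind 0 (c3 G u v w x)) (Fintype.card V : ℤ) with h | h
  · have h1 := sumA hG u v w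
    have h2 : 0 ≤ S3 (FA G u v w) := by
      have e1 : FA G u v w = fun x y z => (5811885 * J3 (ind 0 (c3 G u v w x))
          (ind 4 (c3 G u v w x)) (ind 0 (c3 G u v w y))
          (ind 4 (c3 G u v w y)) (ind 0 (c3 G u v w z)) (ind 4 (c3 G u v w z)) (e G y z)
          + sa (c3 G u v w x) (f3 (c3 G u v w y) (e G x y)) (f3 (c3 G u v w z) (e G x z))) := by
        funext x y z; exact FA_eq u v w x y z
      rw [e1, S3_add, S3_smul]
      have h3 := sa_nonneg (G := G) u v w
      have h4 := J3sum hd (fun x => ind 0 (c3 G u v w x)) (fun x => ind 4 (c3 G u v w x))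
        (fun x => ind_cases _ _) (fun x => ind_cases _ _) (fun x => by
          rcases eq_or_ne (c3 G u v w x) 0 with h' | h'
          · right; exact ind_ne (by omega)
          · left; exact ind_ne h') h (by
          rw [← Finset.sum_add_distrib]
          simp only [ind_c3]
          exact hZ)
      linarith
    linarith
  · have h1 := sumB hG u v w
    have h2 : 0 ≤ S3 (FB G u v w) := by
      have e1 : FB G u v w = fun x y z => (mb (c3 G u v w x) *
          J2 (ind 0 (c3 G u v w y)) (ind 0 (c3 G u v w z)) (e G y z)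
          + sb (c3 G u v w x) (f3 (c3 G u v w y) (e G x y)) (f3 (c3 G u v w z) (e G x z))) := by
        funext x y z; exact FB_eq u v w x y z
      rw [e1, S3_add,
        S3_prod12 (fun y z => J2 (ind 0 (c3 G u v w y)) (ind 0 (c3 G u v w z)) (e G y z))
          (fun x => mb (c3 G u v w x))]
      have h3 := sb_nonneg (G := G) u v w
      have h4 := J2sum hd (fun x => ind 0 (c3 G u v w x)) (fun x => ind_cases _ _) h.le
      have h5 : 0 ≤ ∑ x, mb (c3 G u v w x) := Finset.sum_nonneg fun x _ => mb_nonneg _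
      have h6 := mul_nonneg h5 h4
      linarith
    linarith

end

end Pool.Agent.SH33
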