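import Pool.Agent.SH33.Data

/-!
Sparse halves (helper33): the entries of the certificate as functions on natural numbers, and an
enumeration function whose value the kernel computes.
-/

namespace Pool.Agent.SH33

/-- Entry `k` of a table with 32 bits per entry. -/
def lk (t k : ℕ) : ℕ := Nat.mod (Nat.shiftRight t (Nat.mul 32 k)) 4294967296

/-- Entry `k` of a table with 8 bits per entry. -/
def lk8 (t k : ℕ) : ℕ := Nat.mod (Nat.shiftRight t (Nat.mul 8 k)) 256

/-- `p i` holds for all `i < n`. -/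
def all (n : ℕ) (p : ℕ → Bool) : Bool := Nat.rec true (fun i acc => (p i).and acc) n

theorem all_spec {n : ℕ} {p : ℕ → Bool} (h : all n p = true) {i : ℕ} (hi : i < n) : p i = true := by
  induction n with
  | zero => omega
  | succ n ih =>
    have h' : ((p n).and (all n p)) = true := h
    rw [Bool.and_eq_true] at h'
    rcases Nat.lt_succ_iff_lt_or_eq.1 hi with h1 | h1
    · exact ih h'.2 h1
    · rw [h1]; exact h'.1

theorem or_res {x y : Bool} (h : (x.or y) = true) (hx : x = false) : y = true := by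
  subst hx; exact h

/-- The classes `a`, `b` meet and the edge `e` is present. -/
def bad (a b e : ℕ) : Bool := Nat.ble 1 (Nat.mul e (Nat.land a b))

/-- Three edges are present. -/
def tri (x y z : ℕ) : Bool := Nat.ble 1 (Nat.mul x (Nat.mul y z))

/-- Pair functional. -/
def Tn (a b c d ab ac bc ad bd cd : ℕ) : ℕ :=
  lk valTab (lk8 clsTab (Nat.add (a) (Nat.add (Nat.mul 4 b) (Nat.add (Nat.mul 16 c) (Nat.add (Nat.mul 64 d) (Nat.add (Nat.mul 256 ab) (Nat.add (Nat.mul 512 ac) (Nat.add (Nat.mul 1024 bc) (Nat.add (Nat.mul 2048 ad) (Nat.add (Nat.mul 4096 bd) (Nat.mul 8192 cd)))))))))))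

/-- Triple functional. -/
def Kn (a b c ab ac bc : ℕ) : ℕ :=
  lk kvalTab (lk8 kclsTab (Nat.add (a) (Nat.add (Nat.mul 8 b) (Nat.add (Nat.mul 64 c) (Nat.add (Nat.mul 512 ab) (Nat.add (Nat.mul 1024 ac) (Nat.mul 2048 bc)))))))

/-- First region, terms from fractional halves. -/
def Gn (x y z yz w : ℕ) : ℕ := lk gTab (Nat.add (x) (Nat.add (Nat.mul 4 y) (Nat.add (Nat.mul 16 z) (Nat.add (Nat.mul 64 yz) (Nat.mul 128 w)))))

/-- First region, multipliers of the region inequality. -/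
def Psn (x y z xy xz yz : ℕ) : ℕ := lk psiTab (Nat.add (x) (Nat.add (Nat.mul 4 y) (Nat.add (Nat.mul 16 z) (Nat.add (Nat.mul 64 xy) (Nat.add (Nat.mul 128 xz) (Nat.mul 256 yz))))))

/-- First region, region inequality. -/
def Ln (w x y z xy xz yz : ℕ) : ℕ :=
  bif Nat.beq w 0 then Nat.sub 1073741824 (Psn x y z xy xz yz)
  else Nat.add 1073741824 (Psn x y z xy xz yz)

/-- First region, squares with the pair as type. -/
def P1n (x y xy z w zw : ℕ) : ℕ := lk p1Tab (Nat.add (x) (Nat.add (Nat.mul 4 y) (Nat.add (Nat.mul 16 xy) (Nat.add (Nat.mul 32 z) (Nat.add (Nat.mul 128 w) (Nat.mul 512 zw))))))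

/-- First region, squares with four vertices as type. -/
def Q4n (x y xy z xz yz w xw yw : ℕ) : ℕ := lk q4Tab (Nat.add (x) (Nat.add (Nat.mul 4 y) (Nat.add (Nat.mul 16 xy) (Nat.add (Nat.mul 32 z) (Nat.add (Nat.mul 128 xz) (Nat.add (Nat.mul 256 yz) (Nat.add (Nat.mul 512 w) (Nat.add (Nat.mul 2048 xw) (Nat.mul 4096 yw)))))))))

/-- Second region: squares with the pair as type and fractional halves. -/
def P2n (x y xy z w zw : ℕ) : ℕ := lk p2Tab (Nat.add (x) (Nat.add (Nat.mul 4 y) (Nat.add (Nat.mul 16 xy) (Nat.add (Nat.mul 32 z) (Nat.add (Nat.mul 128 w) (Nat.mul 512 zw))))))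

/-- Multipliers of the fractional halves in the second region. -/
def F2n (x y xy : ℕ) : ℕ := lk f2Tab (Nat.add (x) (Nat.add (Nat.mul 4 y) (Nat.mul 16 xy)))

/-- Triples, first case. -/
def An (x y z xy xz yz : ℕ) : ℕ := lk aTab (Nat.add (x) (Nat.add (Nat.mul 8 y) (Nat.add (Nat.mul 64 z) (Nat.add (Nat.mul 512 xy) (Nat.add (Nat.mul 1024 xz) (Nat.mul 2048 yz))))))

/-- Triples, second case. -/
def Bn (x y z xy xz yz : ℕ) : ℕ := lk bTab (Nat.add (x) (Nat.add (Nat.mul 8 y) (Nat.add (Nat.mul 64 z) (Nat.add (Nat.mul 512 xy) (Nat.add (Nat.mul 1024 xz) (Nat.mul 2048 yz))))))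

/-- Vectors of the squares. -/
def h1 (k i : ℕ) : ℕ := lk h1Tab (Nat.add (Nat.mul 32 k) i)
def h2 (k i : ℕ) : ℕ := lk h2Tab (Nat.add (Nat.mul 32 k) i)
def h4 (t k i : ℕ) : ℕ := lk h4Tab (Nat.add (Nat.mul 16 (Nat.add (Nat.mul 9 t) k)) i)
def ha (t k i : ℕ) : ℕ := lk haTab (Nat.add (Nat.mul 16 (Nat.add (Nat.mul 6 t) k)) i)
def hb (t k i : ℕ) : ℕ := lk hbTab (Nat.add (Nat.mul 16 (Nat.add (Nat.mul 6 t) k)) i)

/-- Code of an edge pattern on two vertices. -/
def k2 (x y xy : ℕ) : ℕ := Nat.add (x) (Nat.add (Nat.mul 4 y) (Nat.mul 16 xy))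

/-- Code of the adjacencies of one vertex to a pair. -/
def f4 (z xz yz : ℕ) : ℕ := Nat.add (z) (Nat.add (Nat.mul 4 xz) (Nat.mul 8 yz))

/-- Code of the adjacencies of one vertex to a vertex. -/
def f3 (y xy : ℕ) : ℕ := Nat.add y (Nat.mul 8 xy)

end Pool.Agent.SH33
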