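import Pool.Agent.SH33.Rows

/-!
Sparse halves (helper33): the entries of the certificate are combinations of the inequalities from
fractional halves, of the region inequalities and of squares.
-/

namespace Pool.Agent.SH33

/-- Indicator of class `k`. -/
def ind (k c : ℕ) : ℤ := bif Nat.beq c k then 1 else 0

/-- One fractional half, three vertices. -/
def J3 (ax rx ay ry az rz yz : ℤ) : ℤ :=
  yz * (20 * rx * ay * az + (10 - 20 * ax) * (ay * rz + ry * az + ry * rz)) - rx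

/-- One fractional half, two vertices. -/
def J2 (rx ry xy : ℤ) : ℤ := rx * ry * (5 * xy - 1)

/-- Multipliers. -/
def m02 (w : ℕ) : ℤ := 2995000 * ind 0 w + 1801 * ind 1 w + 420 * ind 2 w + 8795880 * ind 3 w
def m01 (w : ℕ) : ℤ := 2995000 * ind 0 w + 420 * ind 1 w + 1801 * ind 2 w + 8795880 * ind 3 w
def m023 (w : ℕ) : ℤ := 568703 * ind 3 w
def m013 (w : ℕ) : ℤ := 568703 * ind 3 w
def mb (w : ℕ) : ℤ := 82028 * ind 0 w + 1235066 * ind 3 w + 21718398 * ind 4 w + 33591 * ind 5 w + 33591 * ind 6 w + 195029 * ind 7 w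

/-- The union of the classes `2` and `3`. -/
def r23 (c : ℕ) : ℤ := ind 2 c + ind 3 c
/-- The union of the classes `1` and `3`. -/
def r13 (c : ℕ) : ℤ := ind 1 c + ind 3 c

/-- Sums of squares. -/
def s1 (i j : ℕ) : ℤ := ((h1 0 (i) : ℤ) - 1048576) * ((h1 0 (j) : ℤ) - 1048576) + ((h1 1 (i) : ℤ) - 1048576) * ((h1 1 (j) : ℤ) - 1048576) + ((h1 2 (i) : ℤ) - 1048576) * ((h1 2 (j) : ℤ) - 1048576) + ((h1 3 (i) : ℤ) - 1048576) * ((h1 3 (j) : ℤ) - 1048576) + ((h1 4 (i) : ℤ) - 1048576) * ((h1 4 (j) : ℤ) - 1048576)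
def s2 (i j : ℕ) : ℤ := ((h2 0 (i) : ℤ) - 1048576) * ((h2 0 (j) : ℤ) - 1048576) + ((h2 1 (i) : ℤ) - 1048576) * ((h2 1 (j) : ℤ) - 1048576) + ((h2 2 (i) : ℤ) - 1048576) * ((h2 2 (j) : ℤ) - 1048576) + ((h2 3 (i) : ℤ) - 1048576) * ((h2 3 (j) : ℤ) - 1048576) + ((h2 4 (i) : ℤ) - 1048576) * ((h2 4 (j) : ℤ) - 1048576) + ((h2 5 (i) : ℤ) - 1048576) * ((h2 5 (j) : ℤ) - 1048576)
def s4 (t i j : ℕ) : ℤ := ((h4 t 0 (i) : ℤ) - 1048576) * ((h4 t 0 (j) : ℤ) - 1048576) + ((h4 t 1 (i) : ℤ) - 1048576) * ((h4 t 1 (j) : ℤ) - 1048576) + ((h4 t 2 (i) : ℤ) - 1048576) * ((h4 t 2 (j) : ℤ) - 1048576) + ((h4 t 3 (i) : ℤ) - 1048576) * ((h4 t 3 (j) : ℤ) - 1048576) + ((h4 t 4 (i) : ℤ) - 1048576) * ((h4 t 4 (j) : ℤ) - 1048576) + ((h4 t 5 (i) : ℤ) - 1048576) * ((h4 t 5 (j) : ℤ) - 1048576) + ((h4 t 6 (i) : ℤ) - 1048576) * ((h4 t 6 (j) : ℤ) - 1048576) + ((h4 t 7 (i) : ℤ) - 1048576) * ((h4 t 7 (j) : ℤ) - 1048576) + ((h4 t 8 (i) : ℤ) - 1048576) * ((h4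 t 8 (j) : ℤ) - 1048576)
def sa (t i j : ℕ) : ℤ := ((ha t 0 (i) : ℤ) - 1048576) * ((ha t 0 (j) : ℤ) - 1048576) + ((ha t 1 (i) : ℤ) - 1048576) * ((ha t 1 (j) : ℤ) - 1048576) + ((ha t 2 (i) : ℤ) - 1048576) * ((ha t 2 (j) : ℤ) - 1048576) + ((ha t 3 (i) : ℤ) - 1048576) * ((ha t 3 (j) : ℤ) - 1048576) + ((ha t 4 (i) : ℤ) - 1048576) * ((ha t 4 (j) : ℤ) - 1048576) + ((ha t 5 (i) : ℤ) - 1048576) * ((ha t 5 (j) : ℤ) - 1048576)
def sb (t i j : ℕ) : ℤ := ((hb t 0 (i) : ℤ) - 1048576) * ((hb t 0 (j) : ℤ) - 1048576) + ((hb t 1 (i) : ℤ) - 1048576) * ((hb t 1 (j) : ℤ) - 1048576) + ((hb t 2 (i) : ℤ) - 1048576) * ((hb t 2 (j) : ℤ) - 1048576) + ((hb t 3 (i) : ℤ) - 1048576) * ((hb t 3 (j) : ℤ) - 1048576) + ((hb t 4 (i) : ℤ) - 1048576) * ((hb t 4 (j) : ℤ) - 1048576) + ((hb t 5 (i) : ℤ) - 1048576) * ((hb t 5 (j) : ℤ) - 1048576)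

def chkG : Bool := all 4 fun x => all 4 fun y => all 4 fun z => all 2 fun yz => all 4 fun w =>
  decide ((Gn x y z yz w : ℤ) - 1073741824 =
    m02 w * J3 (ind 0 x) (ind 2 x) (ind 0 y) (ind 2 y) (ind 0 z) (ind 2 z) yz
    + m01 w * J3 (ind 0 x) (ind 1 x) (ind 0 y) (ind 1 y) (ind 0 z) (ind 1 z) yz
    + m023 w * J3 (ind 0 x) (r23 x) (ind 0 y) (r23 y) (ind 0 z) (r23 z) yz
    + m013 w * J3 (ind 0 x) (r13 x) (ind 0 y) (r13 y) (ind 0 z) (r13 z) yz)

theorem chkG_true : chkG = true := by decide +kernel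

def chkPs : Bool := all 4 fun x => all 4 fun y => all 4 fun z => all 2 fun xy => all 2 fun xz =>
  all 2 fun yz => Nat.ble (Psn x y z xy xz yz) 1073741824

theorem chkPs_true : chkPs = true := by decide +kernel

def chkP1 : Bool := all 4 fun x => all 4 fun y => all 2 fun xy => all 4 fun z => all 4 fun w =>
  all 2 fun zw => decide ((P1n x y xy z w zw : ℤ) - 1073741824 = s1 (k2 x y xy) (k2 z w zw))

theorem chkP1_true : chkP1 = true := by decide +kernel

def chkP2 : Bool := all 4 fun x => all 4 fun y => all 2 fun xy => all 4 fun z => all 4 fun w =>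
  all 2 fun zw => decide ((P2n x y xy z w zw : ℤ) - 1073741824 =
    J2 (ind 0 x) (ind 0 y) xy * (F2n z w zw : ℤ) + J2 (ind 0 z) (ind 0 w) zw * (F2n x y xy : ℤ)
    + s2 (k2 x y xy) (k2 z w zw))

theorem chkP2_true : chkP2 = true := by decide +kernel

def chkQ4 : Bool := all 4 fun x => all 4 fun y => all 2 fun xy => all 4 fun z => all 2 fun xz =>
  all 2 fun yz => all 4 fun w => all 2 fun xw => all 2 fun yw =>
  decide ((Q4n x y xy z xz yz w xw yw : ℤ) - 1073741824 = s4 (k2 x y xy) (f4 z xz yz) (f4 w xw yw))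

theorem chkQ4_true : chkQ4 = true := by decide +kernel

def chkAn : Bool := all 8 fun x => all 8 fun y => all 8 fun z => all 2 fun xy => all 2 fun xz =>
  all 2 fun yz => decide ((An x y z xy xz yz : ℤ) - 1073741824 =
    5811885 * J3 (ind 0 x) (ind 4 x) (ind 0 y) (ind 4 y) (ind 0 z) (ind 4 z) yz
    + sa x (f3 y xy) (f3 z xz))

theorem chkAn_true : chkAn = true := by decide +kernel

def chkBn : Bool := all 8 fun x => all 8 fun y => all 8 fun z => all 2 fun xy => all 2 fun xz =>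
  all 2 fun yz => decide ((Bn x y z xy xz yz : ℤ) - 1073741824 =
    mb x * J2 (ind 0 y) (ind 0 z) yz + sb x (f3 y xy) (f3 z xz))

theorem chkBn_true : chkBn = true := by decide +kernel

theorem chkG_eq {x y z yz w : ℕ} (h_x : x < 4) (h_y : y < 4) (h_z : z < 4) (h_yz : yz < 2) (h_w : w < 4) :
    (Gn x y z yz w : ℤ) - 1073741824 =
    m02 w * J3 (ind 0 x) (ind 2 x) (ind 0 y) (ind 2 y) (ind 0 z) (ind 2 z) yz
    + m01 w * J3 (ind 0 x) (ind 1 x) (ind 0 y) (ind 1 y) (ind 0 z) (ind 1 z) yz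
    + m023 w * J3 (ind 0 x) (r23 x) (ind 0 y) (r23 y) (ind 0 z) (r23 z) yz
    + m013 w * J3 (ind 0 x) (r13 x) (ind 0 y) (r13 y) (ind 0 z) (r13 z) yz := by
  have h := chkG_true
  unfold chkG at h
  have h := all_spec h h_x
  have h := all_spec h h_y
  have h := all_spec h h_z
  have h := all_spec h h_yz
  have h := all_spec h h_w
  exact of_decide_eq_true h

theorem chkPs_eq {x y z xy xz yz : ℕ} (h_x : x < 4) (h_y : y < 4) (h_z : z < 4) (h_xy : xy < 2) (h_xz : xz < 2) (h_yz : yz < 2) :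
    Psn x y z xy xz yz ≤ 1073741824 := by
  have h := chkPs_true
  unfold chkPs at h
  have h := all_spec h h_x
  have h := all_spec h h_y
  have h := all_spec h h_z
  have h := all_spec h h_xy
  have h := all_spec h h_xz
  have h := all_spec h h_yz
  exact Nat.le_of_ble_eq_true h

theorem chkP1_eq {x y xy z w zw : ℕ} (h_x : x < 4) (h_y : y < 4) (h_xy : xy < 2) (h_z : z < 4) (h_w : w < 4) (h_zw : zw < 2) :
    (P1n x y xy z w zw : ℤ) - 1073741824 = s1 (k2 x y xy) (k2 z w zw) := by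
  have h := chkP1_true
  unfold chkP1 at h
  have h := all_spec h h_x
  have h := all_spec h h_y
  have h := all_spec h h_xy
  have h := all_spec h h_z
  have h := all_spec h h_w
  have h := all_spec h h_zw
  exact of_decide_eq_true h

theorem chkP2_eq {x y xy z w zw : ℕ} (h_x : x < 4) (h_y : y < 4) (h_xy : xy < 2) (h_z : z < 4) (h_w : w < 4) (h_zw : zw < 2) :
    (P2n x y xy z w zw : ℤ) - 1073741824 =
    J2 (ind 0 x) (ind 0 y) xy * (F2n z w zw : ℤ) + J2 (ind 0 z) (ind 0 w) zw * (F2n x y xy : ℤ)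
    + s2 (k2 x y xy) (k2 z w zw) := by
  have h := chkP2_true
  unfold chkP2 at h
  have h := all_spec h h_x
  have h := all_spec h h_y
  have h := all_spec h h_xy
  have h := all_spec h h_z
  have h := all_spec h h_w
  have h := all_spec h h_zw
  exact of_decide_eq_true h

theorem chkQ4_eq {x y xy z xz yz w xw yw : ℕ} (h_x : x < 4) (h_y : y < 4) (h_xy : xy < 2) (h_z : z < 4) (h_xz : xz < 2) (h_yz : yz < 2) (h_w : w < 4) (h_xw : xw < 2) (h_yw : yw < 2) :
    (Q4n x y xy z xz yz w xw yw : ℤ) - 1073741824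
    = s4 (k2 x y xy) (f4 z xz yz) (f4 w xw yw) := by
  have h := chkQ4_true
  unfold chkQ4 at h
  have h := all_spec h h_x
  have h := all_spec h h_y
  have h := all_spec h h_xy
  have h := all_spec h h_z
  have h := all_spec h h_xz
  have h := all_spec h h_yz
  have h := all_spec h h_w
  have h := all_spec h h_xw
  have h := all_spec h h_yw
  exact of_decide_eq_true h

theorem chkAn_eq {x y z xy xz yz : ℕ} (h_x : x < 8) (h_y : y < 8) (h_z : z < 8) (h_xy : xy < 2) (h_xz : xz < 2) (h_yz : yz < 2) :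
    (An x y z xy xz yz : ℤ) - 1073741824 =
    5811885 * J3 (ind 0 x) (ind 4 x) (ind 0 y) (ind 4 y) (ind 0 z) (ind 4 z) yz
    + sa x (f3 y xy) (f3 z xz) := by
  have h := chkAn_true
  unfold chkAn at h
  have h := all_spec h h_x
  have h := all_spec h h_y
  have h := all_spec h h_z
  have h := all_spec h h_xy
  have h := all_spec h h_xz
  have h := all_spec h h_yz
  exact of_decide_eq_true h

theorem chkBn_eq {x y z xy xz yz : ℕ} (h_x : x < 8) (h_y : y < 8) (h_z : z < 8) (h_xy : xy < 2) (h_xz : xz < 2) (h_yz : yz < 2) :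
    (Bn x y z xy xz yz : ℤ) - 1073741824 =
    mb x * J2 (ind 0 y) (ind 0 z) yz + sb x (f3 y xy) (f3 z xz) := by
  have h := chkBn_true
  unfold chkBn at h
  have h := all_spec h h_x
  have h := all_spec h h_y
  have h := all_spec h h_z
  have h := all_spec h h_xy
  have h := all_spec h h_xz
  have h := all_spec h h_yz
  exact of_decide_eq_true h

end Pool.Agent.SH33
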