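import Mathlib

/-!
Sparse halves (helper33): sums over triples, quadruples and sextuples of vertices, and their
invariance under permutations of the variables.
-/

namespace Pool.Agent.SH33

open Finset

section
variable {V : Type*} [Fintype V]

/-- Sum over triples. -/
def S3 (f : V → V → V → ℤ) : ℤ := ∑ p : V × V × V, f p.1 p.2.1 p.2.2

/-- Sum over quadruples. -/
def S4 (f : V → V → V → V → ℤ) : ℤ := ∑ p : V × V × V × V, f p.1 p.2.1 p.2.2.1 p.2.2.2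

/-- Sum over sextuples. -/
def S6 (f : V → V → V → V → V → V → ℤ) : ℤ :=
  ∑ p : V × V × V × V × V × V, f p.1 p.2.1 p.2.2.1 p.2.2.2.1 p.2.2.2.2.1 p.2.2.2.2.2

theorem S3_eq (f : V → V → V → ℤ) : S3 f = ∑ x, ∑ y, ∑ z, f x y z := by
  unfold S3; simp only [Fintype.sum_prod_type]

theorem S4_eq (f : V → V → V → V → ℤ) : S4 f = ∑ x, ∑ y, ∑ z, ∑ w, f x y z w := by
  unfold S4; simp only [Fintype.sum_prod_type]

theorem S6_eq (f : V → V → V → V → V → V → ℤ) :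
    S6 f = ∑ u, ∑ v, ∑ x, ∑ y, ∑ z, ∑ w, f u v x y z w := by
  unfold S6; simp only [Fintype.sum_prod_type]

theorem S3_add (f g : V → V → V → ℤ) : S3 (fun x y z => f x y z + g x y z) = S3 f + S3 g := by
  unfold S3; rw [← Finset.sum_add_distrib]

theorem S4_add (f g : V → V → V → V → ℤ) :
    S4 (fun x y z w => f x y z w + g x y z w) = S4 f + S4 g := by
  unfold S4; rw [← Finset.sum_add_distrib]

theorem S6_add (f g : V → V → V → V → V → V → ℤ) :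
    S6 (fun u v x y z w => f u v x y z w + g u v x y z w) = S6 f + S6 g := by
  unfold S6; rw [← Finset.sum_add_distrib]

theorem S3_mono (f g : V → V → V → ℤ) (h : ∀ x y z, f x y z ≤ g x y z) : S3 f ≤ S3 g := by
  unfold S3; exact Finset.sum_le_sum fun p _ => h _ _ _

theorem S4_mono (f g : V → V → V → V → ℤ) (h : ∀ x y z w, f x y z w ≤ g x y z w) :
    S4 f ≤ S4 g := by
  unfold S4; exact Finset.sum_le_sum fun p _ => h _ _ _ _

theorem S6_mono (f g : V → V → V → V → V → V → ℤ)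
    (h : ∀ u v x y z w, f u v x y z w ≤ g u v x y z w) : S6 f ≤ S6 g := by
  unfold S6; exact Finset.sum_le_sum fun p _ => h _ _ _ _ _ _

theorem S6_const (c : ℤ) : S6 (fun _ _ _ _ _ _ : V => c) = (Fintype.card V : ℤ) ^ 6 * c := by
  unfold S6
  rw [Finset.sum_const, Finset.card_univ, nsmul_eq_mul]
  simp only [Fintype.card_prod]
  push_cast
  ring


theorem S3p_acb (F : V → V → V → ℤ) :
    S3 (fun a b c => F a c b) = S3 F := by
  unfold S3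
  exact Fintype.sum_equiv ⟨fun p => (p.1, p.2.2, p.2.1), fun p => (p.1, p.2.2, p.2.1),
    fun _ => rfl, fun _ => rfl⟩ _ _ (fun _ => rfl)

theorem S3p_bac (F : V → V → V → ℤ) :
    S3 (fun a b c => F b a c) = S3 F := by
  unfold S3
  exact Fintype.sum_equiv ⟨fun p => (p.2.1, p.1, p.2.2), fun p => (p.2.1, p.1, p.2.2),
    fun _ => rfl, fun _ => rfl⟩ _ _ (fun _ => rfl)

theorem S3p_bca (F : V → V → V → ℤ) :
    S3 (fun a b c => F b c a) = S3 F := by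
  unfold S3
  exact Fintype.sum_equiv ⟨fun p => (p.2.1, p.2.2, p.1), fun p => (p.2.2, p.1, p.2.1),
    fun _ => rfl, fun _ => rfl⟩ _ _ (fun _ => rfl)

theorem S3p_cab (F : V → V → V → ℤ) :
    S3 (fun a b c => F c a b) = S3 F := by
  unfold S3
  exact Fintype.sum_equiv ⟨fun p => (p.2.2, p.1, p.2.1), fun p => (p.2.1, p.2.2, p.1),
    fun _ => rfl, fun _ => rfl⟩ _ _ (fun _ => rfl)

theorem S3p_cba (F : V → V → V → ℤ) :
    S3 (fun a b c => F c b a) = S3 F := by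
  unfold S3
  exact Fintype.sum_equiv ⟨fun p => (p.2.2, p.2.1, p.1), fun p => (p.2.2, p.2.1, p.1),
    fun _ => rfl, fun _ => rfl⟩ _ _ (fun _ => rfl)

theorem S4p_abdc (F : V → V → V → V → ℤ) :
    S4 (fun a b c d => F a b d c) = S4 F := by
  unfold S4
  exact Fintype.sum_equiv ⟨fun p => (p.1, p.2.1, p.2.2.2, p.2.2.1), fun p => (p.1, p.2.1, p.2.2.2, p.2.2.1),
    fun _ => rfl, fun _ => rfl⟩ _ _ (fun _ => rfl)

theorem S4p_acbd (F : V → V → V → V → ℤ) :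
    S4 (fun a b c d => F a c b d) = S4 F := by
  unfold S4
  exact Fintype.sum_equiv ⟨fun p => (p.1, p.2.2.1, p.2.1, p.2.2.2), fun p => (p.1, p.2.2.1, p.2.1, p.2.2.2),
    fun _ => rfl, fun _ => rfl⟩ _ _ (fun _ => rfl)

theorem S4p_acdb (F : V → V → V → V → ℤ) :
    S4 (fun a b c d => F a c d b) = S4 F := by
  unfold S4
  exact Fintype.sum_equiv ⟨fun p => (p.1, p.2.2.1, p.2.2.2, p.2.1), fun p => (p.1, p.2.2.2, p.2.1, p.2.2.1),
    fun _ => rfl, fun _ => rfl⟩ _ _ (fun _ => rfl)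

theorem S4p_adbc (F : V → V → V → V → ℤ) :
    S4 (fun a b c d => F a d b c) = S4 F := by
  unfold S4
  exact Fintype.sum_equiv ⟨fun p => (p.1, p.2.2.2, p.2.1, p.2.2.1), fun p => (p.1, p.2.2.1, p.2.2.2, p.2.1),
    fun _ => rfl, fun _ => rfl⟩ _ _ (fun _ => rfl)

theorem S4p_adcb (F : V → V → V → V → ℤ) :
    S4 (fun a b c d => F a d c b) = S4 F := by
  unfold S4
  exact Fintype.sum_equiv ⟨fun p => (p.1, p.2.2.2, p.2.2.1, p.2.1), fun p => (p.1, p.2.2.2, p.2.2.1, p.2.1),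
    fun _ => rfl, fun _ => rfl⟩ _ _ (fun _ => rfl)

theorem S4p_bacd (F : V → V → V → V → ℤ) :
    S4 (fun a b c d => F b a c d) = S4 F := by
  unfold S4
  exact Fintype.sum_equiv ⟨fun p => (p.2.1, p.1, p.2.2.1, p.2.2.2), fun p => (p.2.1, p.1, p.2.2.1, p.2.2.2),
    fun _ => rfl, fun _ => rfl⟩ _ _ (fun _ => rfl)

theorem S4p_badc (F : V → V → V → V → ℤ) :
    S4 (fun a b c d => F b a d c) = S4 F := by
  unfold S4
  exact Fintype.sum_equiv ⟨fun p => (p.2.1, p.1, p.2.2.2, p.2.2.1), fun p => (p.2.1, p.1, p.2.2.2, p.2.2.1),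
    fun _ => rfl, fun _ => rfl⟩ _ _ (fun _ => rfl)

theorem S4p_bcad (F : V → V → V → V → ℤ) :
    S4 (fun a b c d => F b c a d) = S4 F := by
  unfold S4
  exact Fintype.sum_equiv ⟨fun p => (p.2.1, p.2.2.1, p.1, p.2.2.2), fun p => (p.2.2.1, p.1, p.2.1, p.2.2.2),
    fun _ => rfl, fun _ => rfl⟩ _ _ (fun _ => rfl)

theorem S4p_bcda (F : V → V → V → V → ℤ) :
    S4 (fun a b c d => F b c d a) = S4 F := by
  unfold S4
  exact Fintype.sum_equiv ⟨fun p => (p.2.1, p.2.2.1, p.2.2.2, p.1), fun p => (p.2.2.2, p.1, p.2.1, p.2.2.1),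
    fun _ => rfl, fun _ => rfl⟩ _ _ (fun _ => rfl)

theorem S4p_bdac (F : V → V → V → V → ℤ) :
    S4 (fun a b c d => F b d a c) = S4 F := by
  unfold S4
  exact Fintype.sum_equiv ⟨fun p => (p.2.1, p.2.2.2, p.1, p.2.2.1), fun p => (p.2.2.1, p.1, p.2.2.2, p.2.1),
    fun _ => rfl, fun _ => rfl⟩ _ _ (fun _ => rfl)

theorem S4p_bdca (F : V → V → V → V → ℤ) :
    S4 (fun a b c d => F b d c a) = S4 F := by
  unfold S4
  exact Fintype.sum_equiv ⟨fun p => (p.2.1, p.2.2.2, p.2.2.1, p.1), fun p => (p.2.2.2, p.1, p.2.2.1, p.2.1),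
    fun _ => rfl, fun _ => rfl⟩ _ _ (fun _ => rfl)

theorem S4p_cabd (F : V → V → V → V → ℤ) :
    S4 (fun a b c d => F c a b d) = S4 F := by
  unfold S4
  exact Fintype.sum_equiv ⟨fun p => (p.2.2.1, p.1, p.2.1, p.2.2.2), fun p => (p.2.1, p.2.2.1, p.1, p.2.2.2),
    fun _ => rfl, fun _ => rfl⟩ _ _ (fun _ => rfl)

theorem S4p_cadb (F : V → V → V → V → ℤ) :
    S4 (fun a b c d => F c a d b) = S4 F := by
  unfold S4
  exact Fintype.sum_equiv ⟨fun p => (p.2.2.1, p.1, p.2.2.2, p.2.1), fun p => (p.2.1, p.2.2.2, p.1, p.2.2.1),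
    fun _ => rfl, fun _ => rfl⟩ _ _ (fun _ => rfl)

theorem S4p_cbad (F : V → V → V → V → ℤ) :
    S4 (fun a b c d => F c b a d) = S4 F := by
  unfold S4
  exact Fintype.sum_equiv ⟨fun p => (p.2.2.1, p.2.1, p.1, p.2.2.2), fun p => (p.2.2.1, p.2.1, p.1, p.2.2.2),
    fun _ => rfl, fun _ => rfl⟩ _ _ (fun _ => rfl)

theorem S4p_cbda (F : V → V → V → V → ℤ) :
    S4 (fun a b c d => F c b d a) = S4 F := by
  unfold S4
  exact Fintype.sum_equiv ⟨fun p => (p.2.2.1, p.2.1, p.2.2.2, p.1), fun p => (p.2.2.2, p.2.1, p.1, p.2.2.1),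
    fun _ => rfl, fun _ => rfl⟩ _ _ (fun _ => rfl)

theorem S4p_cdab (F : V → V → V → V → ℤ) :
    S4 (fun a b c d => F c d a b) = S4 F := by
  unfold S4
  exact Fintype.sum_equiv ⟨fun p => (p.2.2.1, p.2.2.2, p.1, p.2.1), fun p => (p.2.2.1, p.2.2.2, p.1, p.2.1),
    fun _ => rfl, fun _ => rfl⟩ _ _ (fun _ => rfl)

theorem S4p_cdba (F : V → V → V → V → ℤ) :
    S4 (fun a b c d => F c d b a) = S4 F := by
  unfold S4
  exact Fintype.sum_equiv ⟨fun p => (p.2.2.1, p.2.2.2, p.2.1, p.1), fun p => (p.2.2.2, p.2.2.1, p.1, p.2.1),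
    fun _ => rfl, fun _ => rfl⟩ _ _ (fun _ => rfl)

theorem S4p_dabc (F : V → V → V → V → ℤ) :
    S4 (fun a b c d => F d a b c) = S4 F := by
  unfold S4
  exact Fintype.sum_equiv ⟨fun p => (p.2.2.2, p.1, p.2.1, p.2.2.1), fun p => (p.2.1, p.2.2.1, p.2.2.2, p.1),
    fun _ => rfl, fun _ => rfl⟩ _ _ (fun _ => rfl)

theorem S4p_dacb (F : V → V → V → V → ℤ) :
    S4 (fun a b c d => F d a c b) = S4 F := by
  unfold S4
  exact Fintype.sum_equiv ⟨fun p => (p.2.2.2, p.1, p.2.2.1, p.2.1), fun p => (p.2.1, p.2.2.2, p.2.2.1, p.1),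
    fun _ => rfl, fun _ => rfl⟩ _ _ (fun _ => rfl)

theorem S4p_dbac (F : V → V → V → V → ℤ) :
    S4 (fun a b c d => F d b a c) = S4 F := by
  unfold S4
  exact Fintype.sum_equiv ⟨fun p => (p.2.2.2, p.2.1, p.1, p.2.2.1), fun p => (p.2.2.1, p.2.1, p.2.2.2, p.1),
    fun _ => rfl, fun _ => rfl⟩ _ _ (fun _ => rfl)

theorem S4p_dbca (F : V → V → V → V → ℤ) :
    S4 (fun a b c d => F d b c a) = S4 F := by
  unfold S4
  exact Fintype.sum_equiv ⟨fun p => (p.2.2.2, p.2.1, p.2.2.1, p.1), fun p => (p.2.2.2, p.2.1, p.2.2.1, p.1),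
    fun _ => rfl, fun _ => rfl⟩ _ _ (fun _ => rfl)

theorem S4p_dcab (F : V → V → V → V → ℤ) :
    S4 (fun a b c d => F d c a b) = S4 F := by
  unfold S4
  exact Fintype.sum_equiv ⟨fun p => (p.2.2.2, p.2.2.1, p.1, p.2.1), fun p => (p.2.2.1, p.2.2.2, p.2.1, p.1),
    fun _ => rfl, fun _ => rfl⟩ _ _ (fun _ => rfl)

theorem S4p_dcba (F : V → V → V → V → ℤ) :
    S4 (fun a b c d => F d c b a) = S4 F := by
  unfold S4
  exact Fintype.sum_equiv ⟨fun p => (p.2.2.2, p.2.2.1, p.2.1, p.1), fun p => (p.2.2.2, p.2.2.1, p.2.1, p.1),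
    fun _ => rfl, fun _ => rfl⟩ _ _ (fun _ => rfl)

theorem S6p_acbdef (F : V → V → V → V → V → V → ℤ) :
    S6 (fun a b c d e f => F a c b d e f) = S6 F := by
  unfold S6
  exact Fintype.sum_equiv ⟨fun p => (p.1, p.2.2.1, p.2.1, p.2.2.2.1, p.2.2.2.2.1, p.2.2.2.2.2), fun p => (p.1, p.2.2.1, p.2.1, p.2.2.2.1, p.2.2.2.2.1, p.2.2.2.2.2),
    fun _ => rfl, fun _ => rfl⟩ _ _ (fun _ => rfl)

theorem S6p_adbcef (F : V → V → V → V → V → V → ℤ) :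
    S6 (fun a b c d e f => F a d b c e f) = S6 F := by
  unfold S6
  exact Fintype.sum_equiv ⟨fun p => (p.1, p.2.2.2.1, p.2.1, p.2.2.1, p.2.2.2.2.1, p.2.2.2.2.2), fun p => (p.1, p.2.2.1, p.2.2.2.1, p.2.1, p.2.2.2.2.1, p.2.2.2.2.2),
    fun _ => rfl, fun _ => rfl⟩ _ _ (fun _ => rfl)

theorem S6p_aebcdf (F : V → V → V → V → V → V → ℤ) :
    S6 (fun a b c d e f => F a e b c d f) = S6 F := by
  unfold S6
  exact Fintype.sum_equiv ⟨fun p => (p.1, p.2.2.2.2.1, p.2.1, p.2.2.1, p.2.2.2.1, p.2.2.2.2.2), fun p => (p.1, p.2.2.1, p.2.2.2.1, p.2.2.2.2.1, p.2.1, p.2.2.2.2.2),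
    fun _ => rfl, fun _ => rfl⟩ _ _ (fun _ => rfl)

theorem S6p_afbcde (F : V → V → V → V → V → V → ℤ) :
    S6 (fun a b c d e f => F a f b c d e) = S6 F := by
  unfold S6
  exact Fintype.sum_equiv ⟨fun p => (p.1, p.2.2.2.2.2, p.2.1, p.2.2.1, p.2.2.2.1, p.2.2.2.2.1), fun p => (p.1, p.2.2.1, p.2.2.2.1, p.2.2.2.2.1, p.2.2.2.2.2, p.2.1),
    fun _ => rfl, fun _ => rfl⟩ _ _ (fun _ => rfl)

theorem S6p_bcadef (F : V → V → V → V → V → V → ℤ) :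
    S6 (fun a b c d e f => F b c a d e f) = S6 F := by
  unfold S6
  exact Fintype.sum_equiv ⟨fun p => (p.2.1, p.2.2.1, p.1, p.2.2.2.1, p.2.2.2.2.1, p.2.2.2.2.2), fun p => (p.2.2.1, p.1, p.2.1, p.2.2.2.1, p.2.2.2.2.1, p.2.2.2.2.2),
    fun _ => rfl, fun _ => rfl⟩ _ _ (fun _ => rfl)

theorem S6p_bdacef (F : V → V → V → V → V → V → ℤ) :
    S6 (fun a b c d e f => F b d a c e f) = S6 F := by
  unfold S6
  exact Fintype.sum_equiv ⟨fun p => (p.2.1, p.2.2.2.1, p.1, p.2.2.1, p.2.2.2.2.1, p.2.2.2.2.2), fun p => (p.2.2.1, p.1, p.2.2.2.1, p.2.1, p.2.2.2.2.1, p.2.2.2.2.2),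
    fun _ => rfl, fun _ => rfl⟩ _ _ (fun _ => rfl)

theorem S6p_beacdf (F : V → V → V → V → V → V → ℤ) :
    S6 (fun a b c d e f => F b e a c d f) = S6 F := by
  unfold S6
  exact Fintype.sum_equiv ⟨fun p => (p.2.1, p.2.2.2.2.1, p.1, p.2.2.1, p.2.2.2.1, p.2.2.2.2.2), fun p => (p.2.2.1, p.1, p.2.2.2.1, p.2.2.2.2.1, p.2.1, p.2.2.2.2.2),
    fun _ => rfl, fun _ => rfl⟩ _ _ (fun _ => rfl)

theorem S6p_bfacde (F : V → V → V → V → V → V → ℤ) :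
    S6 (fun a b c d e f => F b f a c d e) = S6 F := by
  unfold S6
  exact Fintype.sum_equiv ⟨fun p => (p.2.1, p.2.2.2.2.2, p.1, p.2.2.1, p.2.2.2.1, p.2.2.2.2.1), fun p => (p.2.2.1, p.1, p.2.2.2.1, p.2.2.2.2.1, p.2.2.2.2.2, p.2.1),
    fun _ => rfl, fun _ => rfl⟩ _ _ (fun _ => rfl)

theorem S6p_cdabef (F : V → V → V → V → V → V → ℤ) :
    S6 (fun a b c d e f => F c d a b e f) = S6 F := by
  unfold S6
  exact Fintype.sum_equiv ⟨fun p => (p.2.2.1, p.2.2.2.1, p.1, p.2.1, p.2.2.2.2.1, p.2.2.2.2.2), fun p => (p.2.2.1, p.2.2.2.1, p.1, p.2.1, p.2.2.2.2.1, p.2.2.2.2.2),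
    fun _ => rfl, fun _ => rfl⟩ _ _ (fun _ => rfl)

theorem S6p_ceabdf (F : V → V → V → V → V → V → ℤ) :
    S6 (fun a b c d e f => F c e a b d f) = S6 F := by
  unfold S6
  exact Fintype.sum_equiv ⟨fun p => (p.2.2.1, p.2.2.2.2.1, p.1, p.2.1, p.2.2.2.1, p.2.2.2.2.2), fun p => (p.2.2.1, p.2.2.2.1, p.1, p.2.2.2.2.1, p.2.1, p.2.2.2.2.2),
    fun _ => rfl, fun _ => rfl⟩ _ _ (fun _ => rfl)

theorem S6p_cfabde (F : V → V → V → V → V → V → ℤ) :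
    S6 (fun a b c d e f => F c f a b d e) = S6 F := by
  unfold S6
  exact Fintype.sum_equiv ⟨fun p => (p.2.2.1, p.2.2.2.2.2, p.1, p.2.1, p.2.2.2.1, p.2.2.2.2.1), fun p => (p.2.2.1, p.2.2.2.1, p.1, p.2.2.2.2.1, p.2.2.2.2.2, p.2.1),
    fun _ => rfl, fun _ => rfl⟩ _ _ (fun _ => rfl)

theorem S6p_deabcf (F : V → V → V → V → V → V → ℤ) :
    S6 (fun a b c d e f => F d e a b c f) = S6 F := by
  unfold S6
  exact Fintype.sum_equiv ⟨fun p => (p.2.2.2.1, p.2.2.2.2.1, p.1, p.2.1, p.2.2.1, p.2.2.2.2.2), fun p => (p.2.2.1, p.2.2.2.1, p.2.2.2.2.1, p.1, p.2.1, p.2.2.2.2.2),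
    fun _ => rfl, fun _ => rfl⟩ _ _ (fun _ => rfl)

theorem S6p_dfabce (F : V → V → V → V → V → V → ℤ) :
    S6 (fun a b c d e f => F d f a b c e) = S6 F := by
  unfold S6
  exact Fintype.sum_equiv ⟨fun p => (p.2.2.2.1, p.2.2.2.2.2, p.1, p.2.1, p.2.2.1, p.2.2.2.2.1), fun p => (p.2.2.1, p.2.2.2.1, p.2.2.2.2.1, p.1, p.2.2.2.2.2, p.2.1),
    fun _ => rfl, fun _ => rfl⟩ _ _ (fun _ => rfl)

theorem S6p_efabcd (F : V → V → V → V → V → V → ℤ) :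
    S6 (fun a b c d e f => F e f a b c d) = S6 F := by
  unfold S6
  exact Fintype.sum_equiv ⟨fun p => (p.2.2.2.2.1, p.2.2.2.2.2, p.1, p.2.1, p.2.2.1, p.2.2.2.1), fun p => (p.2.2.1, p.2.2.2.1, p.2.2.2.2.1, p.2.2.2.2.2, p.1, p.2.1),
    fun _ => rfl, fun _ => rfl⟩ _ _ (fun _ => rfl)

end

end Pool.Agent.SH33
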