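import Pool.Agent.SH33.Forms
import Pool.Agent.SH33.Sums
import Pool.Agent.SH33.Struct
import Pool.Agent.SH33.ChkA
import Pool.Agent.SH33.ChkT
import Pool.Agent.SH33.ChkI
import Pool.Agent.SH33.ChkII

/-!
Sparse halves (helper33): the pointwise inequalities for vertices of a triangle-free graph, and their
sums over all tuples.
-/

namespace Pool.Agent.SH33

section
variable {V : Type*} (G : SimpleGraph V) [DecidableRel G.Adj]

/-- Class of `x` with respect to the pair `u`, `v`. -/
def c2 (u v x : V) : ℕ := Nat.add (e G u x) (Nat.mul 2 (e G v x))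

/-- Class of `x` with respect to the triple `u`, `v`, `w`. -/
def c3 (u v w x : V) : ℕ := Nat.add (c2 G u v x) (Nat.mul 4 (e G w x))

def FT (u v x y z w : V) : ℤ := (Tn (c2 G u v x) (c2 G u v y) (c2 G u v z) (c2 G u v w)
  (e G x y) (e G x z) (e G y z) (e G x w) (e G y w) (e G z w) : ℤ) - 1073741824
def FG (u v x y z w : V) : ℤ := (Gn (c2 G u v x) (c2 G u v y) (c2 G u v z) (e G y z)
  (c2 G u v w) : ℤ) - 1073741824
def FL (u v w x y z : V) : ℤ := (Ln (c2 G u v w) (c2 G u v x) (c2 G u v y) (c2 G u v z)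
  (e G x y) (e G x z) (e G y z) : ℤ) - 1073741824
def FP1 (u v x y z w : V) : ℤ := (P1n (c2 G u v x) (c2 G u v y) (e G x y) (c2 G u v z)
  (c2 G u v w) (e G z w) : ℤ) - 1073741824
def FP2 (u v x y z w : V) : ℤ := (P2n (c2 G u v x) (c2 G u v y) (e G x y) (c2 G u v z)
  (c2 G u v w) (e G z w) : ℤ) - 1073741824
def FQ (u v x y z w : V) : ℤ := (Q4n (c2 G u v x) (c2 G u v y) (e G x y) (c2 G u v z)
  (e G x z) (e G y z) (c2 G u v w) (e G x w) (e G y w) : ℤ) - 1073741824
def FK (u v x y z w : V) : ℤ := (KLn (c2 G u v x) (c3 G u v x y) (c3 G u v x z) (c3 G u v x w)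
  (e G y z) (e G y w) (e G z w) : ℤ) - 1073741824
def GK (u v w x y z : V) : ℤ := (Kn (c3 G u v w x) (c3 G u v w y) (c3 G u v w z)
  (e G x y) (e G x z) (e G y z) : ℤ) - 1073741824
def FA (u v w x y z : V) : ℤ := (An (c3 G u v w x) (c3 G u v w y) (c3 G u v w z)
  (e G x y) (e G x z) (e G y z) : ℤ) - 1073741824
def FB (u v w x y z : V) : ℤ := (Bn (c3 G u v w x) (c3 G u v w y) (c3 G u v w z)
  (e G x y) (e G x z) (e G y z) : ℤ) - 1073741824
def TT (u v x y z w : V) : ℤ := (TTn (e G u v) (c2 G u v x) (c2 G u v y) (c2 G u v z) (c2 G u v w)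
  (e G x y) (e G x z) (e G y z) (e G x w) (e G y w) (e G z w) : ℤ) - 1073741824

theorem e_comm (x y : V) : e G x y = e G y x := by
  unfold e
  by_cases h : G.Adj x y
  · rw [if_pos h, if_pos h.symm]
  · rw [if_neg h, if_neg (fun h' => h h'.symm)]

theorem e_lt (x y : V) : e G x y < 2 := by
  unfold e; split_ifs <;> omega

theorem e_zero {x y : V} (h : ¬ G.Adj x y) : e G x y = 0 := by
  unfold e; rw [if_neg h]

theorem c2_lt (u v x : V) : c2 G u v x < 4 := by
  have h1 := e_lt G u x
  have h2 := e_lt G v x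
  show e G u x + 2 * e G v x < 4
  omega

theorem c3_lt (u v w x : V) : c3 G u v w x < 8 := by
  have h1 := c2_lt G u v x
  have h2 := e_lt G w x
  show c2 G u v x + 4 * e G w x < 8
  omega

variable {G}

theorem no_tri (hG : G.CliqueFree 3) {x y z : V} (h1 : G.Adj x y) (h2 : G.Adj x z)
    (h3 : G.Adj y z) : False := by
  classical
  exact hG {x, y, z} (SimpleGraph.is3Clique_triple_iff.2 ⟨h1, h2, h3⟩)

theorem e_mul (hG : G.CliqueFree 3) (x y z : V) : e G x y = 0 ∨ e G x z = 0 ∨ e G y z = 0 := by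
  unfold e
  by_cases h1 : G.Adj x y
  · by_cases h2 : G.Adj x z
    · by_cases h3 : G.Adj y z
      · exact (no_tri hG h1 h2 h3).elim
      · right; right; rw [if_neg h3]
    · right; left; rw [if_neg h2]
  · left; rw [if_neg h1]

theorem tri_e (hG : G.CliqueFree 3) (x y z : V) : tri (e G x y) (e G x z) (e G y z) = false := by
  rcases e_mul hG x y z with h | h | h
  · rw [h]; show Nat.ble 1 (0 * _) = false; rw [Nat.zero_mul]; rfl
  · rw [h]; show Nat.ble 1 (_ * (0 * _)) = false; rw [Nat.zero_mul, Nat.mul_zero]; rfl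
  · rw [h]; show Nat.ble 1 (_ * (_ * 0)) = false; rw [Nat.mul_zero, Nat.mul_zero]; rfl

theorem bad_aux (a b c d s : ℕ) (ha : a < 2) (hb : b < 2) (hc : c < 2) (hd : d < 2) (hs : s < 2)
    (h1 : a = 0 ∨ c = 0 ∨ s = 0) (h2 : b = 0 ∨ d = 0 ∨ s = 0) :
    bad (Nat.add a (Nat.mul 2 b)) (Nat.add c (Nat.mul 2 d)) s = false := by
  interval_cases s <;> interval_cases a <;> interval_cases c <;> interval_cases b <;>
    interval_cases d <;> first | rfl | (exfalso; omega)

theorem bad_aux3 (a b c d p q s : ℕ) (ha : a < 2) (hb : b < 2) (hc : c < 2) (hd : d < 2)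
    (hp : p < 2) (hq : q < 2) (hs : s < 2) (h1 : a = 0 ∨ c = 0 ∨ s = 0)
    (h2 : b = 0 ∨ d = 0 ∨ s = 0) (h3 : p = 0 ∨ q = 0 ∨ s = 0) :
    bad (Nat.add (Nat.add a (Nat.mul 2 b)) (Nat.mul 4 p))
      (Nat.add (Nat.add c (Nat.mul 2 d)) (Nat.mul 4 q)) s = false := by
  interval_cases s <;> interval_cases a <;> interval_cases c <;> interval_cases b <;>
    interval_cases d <;> interval_cases p <;> interval_cases q <;>
    first | rfl | (exfalso; omega)

theorem bad_c2 (hG : G.CliqueFree 3) (u v x y : V) :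
    bad (c2 G u v x) (c2 G u v y) (e G x y) = false :=
  bad_aux _ _ _ _ _ (e_lt G u x) (e_lt G v x) (e_lt G u y) (e_lt G v y) (e_lt G x y)
    (e_mul hG u x y) (e_mul hG v x y)

theorem bad_c3 (hG : G.CliqueFree 3) (u v w x y : V) :
    bad (c3 G u v w x) (c3 G u v w y) (e G x y) = false :=
  bad_aux3 _ _ _ _ _ _ _ (e_lt G u x) (e_lt G v x) (e_lt G u y) (e_lt G v y) (e_lt G w x)
    (e_lt G w y) (e_lt G x y) (e_mul hG u x y) (e_mul hG v x y) (e_mul hG w x y)

attribute [local irreducible] Tn Kn Gn Ln P1n P2n Q4n KLn An Bn TTn c2 e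

theorem ptI (hG : G.CliqueFree 3) (u v a b c d : V) :
    FG G u v a b c d
    + FG G u v b a c d
    + FG G u v c a b d
    + FG G u v a b d c
    + FG G u v b a d c
    + FG G u v d a b c
    + FG G u v a c d b
    + FG G u v c a d b
    + FG G u v d a c b
    + FG G u v b c d a
    + FG G u v c b d a
    + FG G u v d b c a
    + FL G u v a b c d
    + FL G u v b a c d
    + FL G u v c a b d
    + FL G u v d a b c
    + FP1 G u v a b c d
    + FP1 G u v a c b d
    + FP1 G u v a d b c
    + FQ G u v a b c d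
    + FQ G u v a c b d
    + FQ G u v a d b c
    + FQ G u v b c a d
    + FQ G u v b d a c
    + FQ G u v c d a b
    ≤ FT G u v a b c d := by
  have h := chkI_sound chkI_true (c2_lt G u v a) (c2_lt G u v b) (e_lt G a b) (bad_c2 hG u v a b) (c2_lt G u v c) (e_lt G a c) (bad_c2 hG u v a c) (e_lt G b c) (bad_c2 hG u v b c) (tri_e hG a b c) (c2_lt G u v d) (e_lt G a d) (bad_c2 hG u v a d) (e_lt G b d) (bad_c2 hG u v b d) (tri_e hG a b d) (e_lt G c d) (bad_c2 hG u v c d) (tri_e hG a c d) (tri_e hG b c d)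
  unfold leafI at h
  have h := Nat.le_of_ble_eq_true h
  simp only [FG, FL, FP1, FQ, FT, e_comm G b a, e_comm G c a, e_comm G d a, e_comm G c b, e_comm G d b, e_comm G d c]
  zify at h
  linarith

theorem ptII (hG : G.CliqueFree 3) (u v a b c d : V) :
    FP2 G u v a b c d
    + FP2 G u v a c b d
    + FP2 G u v a d b c
    + FK G u v a b c d
    + FK G u v b a c d
    + FK G u v c a b d
    + FK G u v d a b c
    ≤ FT G u v a b c d := by
  have h := chkII_sound chkII_true (c2_lt G u v a) (c2_lt G u v b) (e_lt G a b) (bad_c2 hG u v a b) (c2_lt G u v c) (e_lt G a c) (bad_c2 hG u v a c) (e_lt G b c) (bad_c2 hG u v b c) (tri_e hG a b c) (c2_lt G u v d) (e_lt G a d) (bad_c2 hG u v a d) (e_lt G b d) (bad_c2 hG u v b d) (tri_e hG a b d) (e_lt G c d) (bad_c2 hG u v c d) (tri_e hG a c d) (tri_e hG b c d)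
  unfold leafII at h
  have h := Nat.le_of_ble_eq_true h
  simp only [FP2, FK, FT, c3, e_comm G b a, e_comm G c a, e_comm G d a, e_comm G c b, e_comm G d b, e_comm G d c]
  zify at h
  linarith

theorem ptA (hG : G.CliqueFree 3) (u v w a b c : V) :
    FA G u v w a b c
    + FA G u v w b a c
    + FA G u v w c a b
    ≤ GK G u v w a b c := by
  have h := chkA_sound chkA_true (c3_lt G u v w a) (c3_lt G u v w b) (e_lt G a b) (bad_c3 hG u v w a b) (c3_lt G u v w c) (e_lt G a c) (bad_c3 hG u v w a c) (e_lt G b c) (bad_c3 hG u v w b c) (tri_e hG a b c)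
  unfold leafA at h
  have h := Nat.le_of_ble_eq_true h
  simp only [FA, GK, e_comm G b a, e_comm G c a, e_comm G c b]
  zify at h
  linarith

theorem ptB (hG : G.CliqueFree 3) (u v w a b c : V) :
    FB G u v w a b c
    + FB G u v w b a c
    + FB G u v w c a b
    ≤ GK G u v w a b c := by
  have h := chkB_sound chkB_true (c3_lt G u v w a) (c3_lt G u v w b) (e_lt G a b) (bad_c3 hG u v w a b) (c3_lt G u v w c) (e_lt G a c) (bad_c3 hG u v w a c) (e_lt G b c) (bad_c3 hG u v w b c) (tri_e hG a b c)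
  unfold leafB at h
  have h := Nat.le_of_ble_eq_true h
  simp only [FB, GK, e_comm G b a, e_comm G c a, e_comm G c b]
  zify at h
  linarith

theorem ptT (hG : G.CliqueFree 3) (a b c d e' f : V) :
    TT G a b c d e' f
    + TT G a c b d e' f
    + TT G a d b c e' f
    + TT G a e' b c d f
    + TT G a f b c d e'
    + TT G b c a d e' f
    + TT G b d a c e' f
    + TT G b e' a c d f
    + TT G b f a c d e'
    + TT G c d a b e' f
    + TT G c e' a b d f
    + TT G c f a b d e'
    + TT G d e' a b c f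
    + TT G d f a b c e'
    + TT G e' f a b c d
    ≤ -1 := by
  have h := chkT_sound chkT_true (e_lt G a b) (e_lt G a c) (e_lt G b c) (tri_e hG a b c) (e_lt G a d) (e_lt G b d) (tri_e hG a b d) (e_lt G c d) (tri_e hG a c d) (tri_e hG b c d) (e_lt G a e') (e_lt G b e') (tri_e hG a b e') (e_lt G c e') (tri_e hG a c e') (tri_e hG b c e') (e_lt G d e') (tri_e hG a d e') (tri_e hG b d e') (tri_e hG c d e') (e_lt G a f) (e_lt G b f) (tri_e hG a b f) (e_lt G c f) (tri_e hG a c f) (tri_e hG b c f) (e_lt G d f) (tri_e hG a d f) (tri_e hG b d f) (tri_e hG c d f) (e_lt G e' f) (tri_e hG a e' f) (tri_e hG b e' f) (tri_e hG c e' f) (tri_e hG d e' f)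
  unfold leafT at h
  have h := Nat.le_of_ble_eq_true h
  simp only [TT, c2, e_comm G b a, e_comm G c a, e_comm G d a, e_comm G e' a, e_comm G f a, e_comm G c b, e_comm G d b, e_comm G e' b, e_comm G f b, e_comm G d c, e_comm G e' c, e_comm G f c, e_comm G e' d, e_comm G f d, e_comm G f e']
  zify at h
  linarith

end

section
variable {V : Type*} [Fintype V] {G : SimpleGraph V} [DecidableRel G.Adj]

theorem sumI (hG : G.CliqueFree 3) (u v : V) :
    12 * S4 (FG G u v) + 4 * S4 (FL G u v) + 3 * S4 (FP1 G u v) + 6 * S4 (FQ G u v) ≤ S4 (FT G u v) := by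
  have h := S4_mono (fun a b c d => FG G u v a b c d
      + FG G u v b a c d
      + FG G u v c a b d
      + FG G u v a b d c
      + FG G u v b a d c
      + FG G u v d a b c
      + FG G u v a c d b
      + FG G u v c a d b
      + FG G u v d a c b
      + FG G u v b c d a
      + FG G u v c b d a
      + FG G u v d b c a
      + FL G u v a b c d
      + FL G u v b a c d
      + FL G u v c a b d
      + FL G u v d a b c
      + FP1 G u v a b c d
      + FP1 G u v a c b d
      + FP1 G u v a d b c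
      + FQ G u v a b c d
      + FQ G u v a c b d
      + FQ G u v a d b c
      + FQ G u v b c a d
      + FQ G u v b d a c
      + FQ G u v c d a b) (FT G u v)
    (fun a b c d => ptI hG u v a b c d)
  simp only [S4_add] at h
  have e1 : S4 (fun a b c d => FG G u v b a c d) = S4 (FG G u v) := S4p_bacd _
  have e2 : S4 (fun a b c d => FG G u v c a b d) = S4 (FG G u v) := S4p_cabd _
  have e3 : S4 (fun a b c d => FG G u v a b d c) = S4 (FG G u v) := S4p_abdc _
  have e4 : S4 (fun a b c d => FG G u v b a d c) = S4 (FG G u v) := S4p_badc _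
  have e5 : S4 (fun a b c d => FG G u v d a b c) = S4 (FG G u v) := S4p_dabc _
  have e6 : S4 (fun a b c d => FG G u v a c d b) = S4 (FG G u v) := S4p_acdb _
  have e7 : S4 (fun a b c d => FG G u v c a d b) = S4 (FG G u v) := S4p_cadb _
  have e8 : S4 (fun a b c d => FG G u v d a c b) = S4 (FG G u v) := S4p_dacb _
  have e9 : S4 (fun a b c d => FG G u v b c d a) = S4 (FG G u v) := S4p_bcda _
  have e10 : S4 (fun a b c d => FG G u v c b d a) = S4 (FG G u v) := S4p_cbda _
  have e11 : S4 (fun a b c d => FG G u v d b c a) = S4 (FG G u v) := S4p_dbca _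
  have e12 : S4 (fun a b c d => FL G u v b a c d) = S4 (FL G u v) := S4p_bacd _
  have e13 : S4 (fun a b c d => FL G u v c a b d) = S4 (FL G u v) := S4p_cabd _
  have e14 : S4 (fun a b c d => FL G u v d a b c) = S4 (FL G u v) := S4p_dabc _
  have e15 : S4 (fun a b c d => FP1 G u v a c b d) = S4 (FP1 G u v) := S4p_acbd _
  have e16 : S4 (fun a b c d => FP1 G u v a d b c) = S4 (FP1 G u v) := S4p_adbc _
  have e17 : S4 (fun a b c d => FQ G u v a c b d) = S4 (FQ G u v) := S4p_acbd _
  have e18 : S4 (fun a b c d => FQ G u v a d b c) = S4 (FQ G u v) := S4p_adbc _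
  have e19 : S4 (fun a b c d => FQ G u v b c a d) = S4 (FQ G u v) := S4p_bcad _
  have e20 : S4 (fun a b c d => FQ G u v b d a c) = S4 (FQ G u v) := S4p_bdac _
  have e21 : S4 (fun a b c d => FQ G u v c d a b) = S4 (FQ G u v) := S4p_cdab _
  linarith

theorem sumII (hG : G.CliqueFree 3) (u v : V) :
    3 * S4 (FP2 G u v) + 4 * S4 (FK G u v) ≤ S4 (FT G u v) := by
  have h := S4_mono (fun a b c d => FP2 G u v a b c d
      + FP2 G u v a c b d
      + FP2 G u v a d b c
      + FK G u v a b c d
      + FK G u v b a c d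
      + FK G u v c a b d
      + FK G u v d a b c) (FT G u v)
    (fun a b c d => ptII hG u v a b c d)
  simp only [S4_add] at h
  have e1 : S4 (fun a b c d => FP2 G u v a c b d) = S4 (FP2 G u v) := S4p_acbd _
  have e2 : S4 (fun a b c d => FP2 G u v a d b c) = S4 (FP2 G u v) := S4p_adbc _
  have e3 : S4 (fun a b c d => FK G u v b a c d) = S4 (FK G u v) := S4p_bacd _
  have e4 : S4 (fun a b c d => FK G u v c a b d) = S4 (FK G u v) := S4p_cabd _
  have e5 : S4 (fun a b c d => FK G u v d a b c) = S4 (FK G u v) := S4p_dabc _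
  linarith

theorem sumA (hG : G.CliqueFree 3) (u v w : V) :
    3 * S3 (FA G u v w) ≤ S3 (GK G u v w) := by
  have h := S3_mono (fun a b c => FA G u v w a b c
      + FA G u v w b a c
      + FA G u v w c a b) (GK G u v w)
    (fun a b c => ptA hG u v w a b c)
  simp only [S3_add] at h
  have e1 : S3 (fun a b c => FA G u v w b a c) = S3 (FA G u v w) := S3p_bac _
  have e2 : S3 (fun a b c => FA G u v w c a b) = S3 (FA G u v w) := S3p_cab _
  linarith

theorem sumB (hG : G.CliqueFree 3) (u v w : V) :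
    3 * S3 (FB G u v w) ≤ S3 (GK G u v w) := by
  have h := S3_mono (fun a b c => FB G u v w a b c
      + FB G u v w b a c
      + FB G u v w c a b) (GK G u v w)
    (fun a b c => ptB hG u v w a b c)
  simp only [S3_add] at h
  have e1 : S3 (fun a b c => FB G u v w b a c) = S3 (FB G u v w) := S3p_bac _
  have e2 : S3 (fun a b c => FB G u v w c a b) = S3 (FB G u v w) := S3p_cab _
  linarith

theorem sumT (hG : G.CliqueFree 3) : 15 * S6 (TT G) ≤ - (Fintype.card V : ℤ) ^ 6 := by
  have h := S6_mono (fun a b c d e' f => TT G a b c d e' f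
      + TT G a c b d e' f
      + TT G a d b c e' f
      + TT G a e' b c d f
      + TT G a f b c d e'
      + TT G b c a d e' f
      + TT G b d a c e' f
      + TT G b e' a c d f
      + TT G b f a c d e'
      + TT G c d a b e' f
      + TT G c e' a b d f
      + TT G c f a b d e'
      + TT G d e' a b c f
      + TT G d f a b c e'
      + TT G e' f a b c d) (fun _ _ _ _ _ _ => -1)
    (fun a b c d e' f => ptT hG a b c d e' f)
  rw [S6_const] at h
  simp only [S6_add] at h
  have e1 : S6 (fun a b c d e' f => TT G a c b d e' f) = S6 (TT G) := S6p_acbdef _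
  have e2 : S6 (fun a b c d e' f => TT G a d b c e' f) = S6 (TT G) := S6p_adbcef _
  have e3 : S6 (fun a b c d e' f => TT G a e' b c d f) = S6 (TT G) := S6p_aebcdf _
  have e4 : S6 (fun a b c d e' f => TT G a f b c d e') = S6 (TT G) := S6p_afbcde _
  have e5 : S6 (fun a b c d e' f => TT G b c a d e' f) = S6 (TT G) := S6p_bcadef _
  have e6 : S6 (fun a b c d e' f => TT G b d a c e' f) = S6 (TT G) := S6p_bdacef _
  have e7 : S6 (fun a b c d e' f => TT G b e' a c d f) = S6 (TT G) := S6p_beacdf _
  have e8 : S6 (fun a b c d e' f => TT G b f a c d e') = S6 (TT G) := S6p_bfacde _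
  have e9 : S6 (fun a b c d e' f => TT G c d a b e' f) = S6 (TT G) := S6p_cdabef _
  have e10 : S6 (fun a b c d e' f => TT G c e' a b d f) = S6 (TT G) := S6p_ceabdf _
  have e11 : S6 (fun a b c d e' f => TT G c f a b d e') = S6 (TT G) := S6p_cfabde _
  have e12 : S6 (fun a b c d e' f => TT G d e' a b c f) = S6 (TT G) := S6p_deabcf _
  have e13 : S6 (fun a b c d e' f => TT G d f a b c e') = S6 (TT G) := S6p_dfabce _
  have e14 : S6 (fun a b c d e' f => TT G e' f a b c d) = S6 (TT G) := S6p_efabcd _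
  linarith

end

end Pool.Agent.SH33
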